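import Mathlib
import Pool.Agent.Y295.SP.F
set_option autoImplicit false
set_option linter.unusedSectionVars false

/-! Windows, sharp cutoffs and monotone factors for a general map `S` in place of a projection. -/

namespace Pool.Agent.Y295.BV

open MeasureTheory Set Complex Filter Topology
open scoped ENNReal NNReal RealInnerProductSpace
open Pool.Agent.H789R2.FR (E sg T sg_finite sg_ae)
open Pool.Agent.H438R2.PD (T_meas' T_le)
open Pool.Agent.W354.LS (tri tri_nonneg tri_le_one tri_zero)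
open Pool.Agent.Y295.NS (fj fj_nonneg fj_integrable fj_lint fj_tri fj_cont jensen tri_cont ramp ramp_sum
  ramp_cont ramp_mem ind_lim)
open Pool.Agent.TH277.HT (ch ch_norm ch_cont ch_add)
open Pool.Agent.Y295.SP (ex ex_norm ex_cont ex_cont' T_def LL T_congr LL_congr LL_add LL_smul LL_sum LL_dom
  LL_up LL_mod LL_mix T_joint cc_est lay_int lay_meas T_lay level)

variable {n : ℕ} {Ω : Type*} [MeasurableSpace Ω] {S : E n → Ω}

/-- multiplier type bound -/
def MulS {n : ℕ} {Ω : Type*} [MeasurableSpace Ω] (S : E n → Ω) (q : ℝ) (G : E n → ℂ) (B : ℝ≥0∞) : Prop :=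
  ∀ H : Ω → ℂ, Measurable H → (∀ y, ‖H y‖ ≤ 1) → LL q (fun x => H (S x) * G x) ≤ B

/-- the pieces of a window -/
noncomputable def pc (S : E n → Ω) (η : E n) (α : Ω → ℝ) (K : E n → ℂ) (w : ℝ) (x : E n) : ℂ :=
  ex (-((2 * Real.pi * w) • η)) x * (ch (w * α (S x)) * K x)

lemma pc_eq (η : E n) (α : Ω → ℝ) (K : E n → ℂ) (w : ℝ) (x : E n) :
    pc S η α K w x = ch (w * (⟪η, x⟫ + α (S x))) * K x := by
  unfold pc
  rw [mul_add, ch_add, ← mul_assoc]
  congr 2
  unfold ex ch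
  rw [inner_neg_left, real_inner_smul_left]
  congr 1
  push_cast
  ring

lemma pc_meas (hS : Measurable S) (η : E n) {α : Ω → ℝ} (hα : Measurable α) {K : E n → ℂ} (hK : Measurable K) :
    Measurable fun y : E n × ℝ => pc S η α K y.2 y.1 := by
  simp only [pc_eq]
  have h1 : Measurable fun y : E n × ℝ => (⟪η, y.1⟫ : ℝ) :=
    (by fun_prop : Continuous fun y : E n × ℝ => (⟪η, y.1⟫ : ℝ)).measurable
  have h2 : Measurable fun y : E n × ℝ => α (S y.1) :=
    hα.comp (hS.comp measurable_fst)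
  exact (ch_cont.measurable.comp (measurable_snd.mul (h1.add h2))).mul (hK.comp measurable_fst)

/-- the window as a superposition -/
lemma T_win (hS : Measurable S) (η : E n) {α : Ω → ℝ} (hα : Measurable α) {K : E n → ℂ} (hK : Measurable K)
    (hK1 : ∀ x, ‖K x‖ ≤ 1) (z : E n) :
    T (fun x => (tri (⟪η, x⟫ + α (S x)) : ℂ) * K x) z =
      ∫ w, (fj w : ℂ) * T (pc S η α K w) z := by
  simp only [T_def]
  have hI : Integrable (Function.uncurry fun (x : E n) (w : ℝ) =>
      ex z x * ((fj w : ℂ) * pc S η α K w x)) ((sg n).prod volume) := by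
    have h1 : Integrable (fun _ : E n => (1 : ℝ)) (sg n) := integrable_const _
    refine Integrable.mono' (h1.mul_prod fj_integrable) ?_ (ae_of_all _ fun y => ?_)
    · apply Measurable.aestronglyMeasurable
      have h2 : Measurable fun y : E n × ℝ => (fj y.2 : ℂ) :=
        Complex.measurable_ofReal.comp (fj_cont.measurable.comp measurable_snd)
      exact ((ex_cont' z).measurable.comp measurable_fst).mul (h2.mul (pc_meas hS η hα hK))
    · rw [Function.uncurry, norm_mul, norm_mul, ex_norm, one_mul, Complex.norm_real, Real.norm_eq_abs,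
        abs_of_nonneg (fj_nonneg _), one_mul, pc_eq, norm_mul, ch_norm, one_mul]
      exact mul_le_of_le_one_right (fj_nonneg _) (hK1 _)
  have hs := integral_integral_swap hI
  have e1 : ∀ x : E n, ex z x * ((tri (⟪η, x⟫ + α (S x)) : ℂ) * K x) =
      ∫ w : ℝ, ex z x * ((fj w : ℂ) * pc S η α K w x) := by
    intro x
    simp only [pc_eq]
    rw [integral_const_mul]
    congr 1
    rw [← fj_tri, ← integral_mul_const]
    congr 1
    ext w
    ring
  simp only [e1]
  rw [hs]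
  apply integral_congr_ae
  refine ae_of_all _ fun w => ?_
  simp only
  rw [← integral_const_mul]
  apply integral_congr_ae
  refine ae_of_all _ fun x => ?_
  simp only
  ring

/-- windows -/
lemma Mul_win (hS : Measurable S) (q : ℝ) (hq : 1 ≤ q) (η : E n) {α : Ω → ℝ} (hα : Measurable α)
    {G : E n → ℂ} (hG : Measurable G) (hG1 : ∀ x, ‖G x‖ ≤ 1) (B : ℝ≥0∞) (h : MulS S q G B) :
    MulS S q (fun x => (tri (⟪η, x⟫ + α (S x)) : ℂ) * G x) B := by
  intro H hH hH1
  have hK : Measurable fun x : E n => H (S x) * G x := (hH.comp hS).mul hG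
  have hK1 : ∀ x, ‖H (S x) * G x‖ ≤ 1 := by
    intro x
    rw [norm_mul]
    exact mul_le_one₀ (hH1 _) (norm_nonneg _) (hG1 x)
  have e0 : (fun x => H (S x) * ((tri (⟪η, x⟫ + α (S x)) : ℂ) * G x)) =
      fun x => (tri (⟪η, x⟫ + α (S x)) : ℂ) * (H (S x) * G x) := by
    ext x
    ring
  rw [e0]
  refine LL_mix volume q hq _ (pc S η α fun x => H (S x) * G x) (fun w => ENNReal.ofReal (fj w))
    fj_cont.measurable.ennreal_ofReal fj_lint.le (T_joint _ (pc_meas hS η hα hK)) ?_ B ?_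
  · intro z
    rw [T_win hS η hα hK hK1 z]
    refine (enorm_integral_le_lintegral_enorm _).trans (le_of_eq ?_)
    apply lintegral_congr
    intro w
    rw [enorm_mul]
    congr 1
    rw [← ofReal_norm, Complex.norm_real, Real.norm_eq_abs, abs_of_nonneg (fj_nonneg _)]
  · intro w
    have e1 : pc S η α (fun x => H (S x) * G x) w = fun x => ex (-((2 * Real.pi * w) • η)) x *
        ((fun y => ch (w * α y) * H y) (S x) * G x) := by
      ext x
      unfold pc
      simp only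
      ring
    rw [e1, LL_mod]
    have hm1 : Measurable fun y => ch (w * α y) := ch_cont.measurable.comp (hα.const_mul w)
    refine h (fun y => ch (w * α y) * H y) (hm1.mul hH) ?_
    · intro y
      rw [norm_mul, ch_norm, one_mul]
      exact hH1 y

attribute [local irreducible] LL

lemma in_meas (η : E n) : Measurable fun x : E n => (⟪η, x⟫ : ℝ) :=
  (by fun_prop : Continuous fun x : E n => (⟪η, x⟫ : ℝ)).measurable

lemma in_le (η : E n) (h : ‖η‖ = 1) {x : E n} (hx : ‖x‖ = 1) : |(⟪η, x⟫ : ℝ)| ≤ 1 := by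
  have h1 := abs_real_inner_le_norm η x
  rwa [h, hx, mul_one] at h1

/-- narrow windows have small measure -/
def Nar {n : ℕ} {Ω : Type*} [MeasurableSpace Ω] (S : E n → Ω) (C : ℝ) (η : E n) : Prop :=
  ∀ (α : Ω → ℝ) (c : ℝ), Measurable α → 0 < c →
    ∫⁻ x, ENNReal.ofReal (tri (⟪c • η, x⟫ + α (S x))) ∂(sg n) ≤ ENNReal.ofReal (C * c ^ (-(1 / 2) : ℝ))

/-- sharp cutoffs -/
theorem thr (q q' : ℝ) (hq' : 1 ≤ q') (hqq : q' < q) (C : ℝ) (hC : 0 < C) :
    ∃ D : ℝ, 0 ≤ D ∧ ∀ (S : E n → Ω), Measurable S → ∀ (η : E n) (R : Ω → ℝ) (G : E n → ℂ) (B B' : ℝ),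
    ‖η‖ = 1 → Nar S C η → Measurable R → Measurable G → (∀ x, ‖G x‖ ≤ 1) → 0 ≤ B → 0 ≤ B' →
    MulS S q G (ENNReal.ofReal B) → MulS S q' G (ENNReal.ofReal B') →
    MulS S q (fun x => ((if R (S x) ≤ (⟪η, x⟫ : ℝ) then (1 : ℝ) else 0 : ℝ) : ℂ) * G x)
      (ENNReal.ofReal (2 * B + D * B' ^ (q' / q))) := by
  have hq0 : 0 < q := by linarith
  set θ : ℝ := 1 - q' / q with hθ
  have hθ0 : 0 < θ := by
    rw [hθ, sub_pos, div_lt_one hq0]
    exact hqq
  set r0 : ℝ := (1 / 2 : ℝ) ^ (1 / 2 : ℝ) with hr0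
  have hr00 : 0 < r0 := by positivity
  have hr01 : r0 < 1 := Real.rpow_lt_one (by norm_num) (by norm_num) (by norm_num)
  set ρ : ℝ := r0 ^ θ with hρ
  have hρ0 : 0 < ρ := by positivity
  have hρ1 : ρ < 1 := Real.rpow_lt_one hr00.le hr01 hθ0
  set K : ℝ := (C * 2) ^ θ with hK
  have hK0 : 0 < K := by positivity
  refine ⟨K * (1 - ρ)⁻¹, by
    have : 0 < 1 - ρ := by linarith
    positivity, ?_⟩
  intro S hS η R G B B' hη hnar hR hG hG1 hB hB' hMB hMB' H hH hH1
  set R0 : Ω → ℝ := fun y => max (-2) (min 2 (R y)) with hR0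
  have hR0m : Measurable R0 := measurable_const.max (measurable_const.min hR)
  set α : Ω → ℝ := fun y => -(R0 y / 4) with hα
  have hαm : Measurable α := (hR0m.div_const _).neg
  set v : E n → ℝ := fun x => ⟪(1 / 4 : ℝ) • η, x⟫ + α (S x) with hv
  have hvm : Measurable v := (in_meas _).add (hαm.comp hS)
  have hve : ∀ x, v x = ((⟪η, x⟫ : ℝ) - R0 (S x)) / 4 := by
    intro x
    rw [hv, hα]
    simp only
    rw [real_inner_smul_left]
    ring
  have hHm : Measurable fun x : E n => H (S x) := hH.comp hS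
  -- replace the indicator
  have hae : (fun x => H (S x) *
      (((if R (S x) ≤ (⟪η, x⟫ : ℝ) then (1 : ℝ) else 0 : ℝ) : ℂ) * G x)) =ᵐ[sg n]
      fun x => H (S x) * (((if 0 ≤ v x then (1 : ℝ) else 0 : ℝ) : ℂ) * G x) := by
    filter_upwards [sg_ae n] with x hx
    have h1 := abs_le.1 (in_le η hη hx)
    have h2 : R (S x) ≤ (⟪η, x⟫ : ℝ) ↔ 0 ≤ v x := by
      rw [hve x]
      have h3 : R0 (S x) = max (-2) (min 2 (R (S x))) := rfl
      rw [h3]
      constructor
      · intro h4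
        apply div_nonneg _ (by norm_num)
        rw [sub_nonneg, max_le_iff]
        exact ⟨by linarith [h1.1], (min_le_right _ _).trans h4⟩
      · intro h4
        have h5 : 0 ≤ (⟪η, x⟫ : ℝ) - max (-2) (min 2 (R (S x))) := by
          by_contra hc
          have : ((⟪η, x⟫ : ℝ) - max (-2) (min 2 (R (S x)))) / 4 < 0 :=
            div_neg_of_neg_of_pos (not_le.1 hc) (by norm_num)
          linarith
        rw [sub_nonneg, max_le_iff] at h5
        rcases min_le_iff.1 h5.2 with h6 | h6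
        · linarith [h1.2]
        · exact h6
    simp only [h2]
  rw [LL_congr q hae]
  refine LL_dom q (by linarith) _ (fun _ => (1 : ℂ)) (fun l x => H (S x) * ((ramp l (v x) : ℂ) * G x))
    (integrable_const _) ?_ ?_ ?_ ?_ ?_ _ ?_
  · apply hHm.mul
    apply Measurable.mul _ hG
    apply Complex.measurable_ofReal.comp
    exact Measurable.ite (measurableSet_le measurable_const hvm) measurable_const measurable_const
  · intro l
    exact hHm.mul ((Complex.measurable_ofReal.comp ((ramp_cont l).measurable.comp hvm)).mul hG)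
  · intro x
    rw [norm_mul, norm_mul, norm_one, Complex.norm_real, Real.norm_eq_abs]
    refine mul_le_one₀ (hH1 _) (by positivity) (mul_le_one₀ ?_ (norm_nonneg _) (hG1 x))
    split_ifs <;> simp
  · intro l x
    rw [norm_mul, norm_mul, norm_one, Complex.norm_real, Real.norm_eq_abs,
      abs_of_nonneg (ramp_mem l _).1]
    exact mul_le_one₀ (hH1 _) (mul_nonneg (ramp_mem l _).1 (norm_nonneg _))
      (mul_le_one₀ (ramp_mem l _).2 (norm_nonneg _) (hG1 x))
  · intro x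
    apply Tendsto.const_mul
    apply Tendsto.mul_const
    exact (Complex.continuous_ofReal.tendsto _).comp (ind_lim (v x))
  intro l
  -- windows
  set cc : ℕ → ℝ := fun j => 2 ^ (j + 1) / 4 with hcc
  have hcc0 : ∀ j, 0 < cc j := fun j => by rw [hcc]; positivity
  set αj : ℕ → Ω → ℝ := fun j y => α y * 2 ^ (j + 1) + 1 with hαj
  have hαjm : ∀ j, Measurable (αj j) := fun j => (hαm.mul_const _).add_const _
  have e : LL q (fun x => H (S x) * ((ramp l (v x) : ℂ) * G x)) =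
      LL q (fun x => (H (S x) * ((tri (⟪(1 / 4 : ℝ) • η, x⟫ + α (S x)) : ℂ) * G x) +
        H (S x) * ((tri (⟪(1 / 4 : ℝ) • η, x⟫ + (fun y => α y + -1) (S x)) : ℂ) * G x)) +
        ∑ j ∈ Finset.range l, (-(1 / 2) : ℂ) * (H (S x) *
          ((tri (⟪cc j • η, x⟫ + αj j (S x)) : ℂ) * G x))) := by
    apply LL_congr
    filter_upwards [sg_ae n] with x hx
    have h1 := abs_le.1 (in_le η hη hx)
    have hv1 : v x ≤ 1 := by
      rw [hve x, div_le_one (by norm_num)]
      have h2 : -2 ≤ R0 (S x) := le_max_left _ _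
      linarith [h1.2]
    rw [ramp_sum l _ hv1]
    push_cast
    rw [add_mul, add_mul, mul_add, mul_add, Finset.sum_mul, Finset.mul_sum]
    congr 1
    · congr 1
      rw [hv]
      simp only
      rw [add_assoc]
    · apply Finset.sum_congr rfl
      intro j _
      have e2 : v x * 2 ^ (j + 1) + 1 = ⟪cc j • η, x⟫ + αj j (S x) := by
        rw [hv, hcc, hαj]
        simp only
        rw [real_inner_smul_left, real_inner_smul_left]
        ring
      rw [e2]
      ring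
  rw [e]
  have hα1 : Measurable fun y => α y + -1 := hαm.add_const _
  have b1 := Mul_win hS q (by linarith) ((1 / 4 : ℝ) • η) hαm hG hG1 _ hMB H hH hH1
  have b2 := Mul_win hS q (by linarith) ((1 / 4 : ℝ) • η) hα1 hG hG1 _ hMB H hH hH1
  have hwm : ∀ (ζ : E n) (β : Ω → ℝ), Measurable β →
      Measurable fun x => H (S x) * ((tri (⟪ζ, x⟫ + β (S x)) : ℂ) * G x) := by
    intro ζ β hβ
    exact hHm.mul ((Complex.measurable_ofReal.comp (tri_cont.measurable.comp
      ((in_meas ζ).add (hβ.comp hS)))).mul hG)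
  have hwb : ∀ (ζ : E n) (β : Ω → ℝ) (x : E n),
      ‖H (S x) * ((tri (⟪ζ, x⟫ + β (S x)) : ℂ) * G x)‖ ≤ tri (⟪ζ, x⟫ + β (S x)) := by
    intro ζ β x
    rw [norm_mul, norm_mul, Complex.norm_real, Real.norm_eq_abs, abs_of_nonneg (tri_nonneg _)]
    have h1 := hH1 (S x)
    have h2 := hG1 x
    have h3 := tri_nonneg (⟪ζ, x⟫ + β (S x))
    calc ‖H (S x)‖ * (tri (⟪ζ, x⟫ + β (S x)) * ‖G x‖)
        ≤ 1 * (tri (⟪ζ, x⟫ + β (S x)) * 1) := by gcongr
      _ = _ := by ring
  have hwi : ∀ (ζ : E n) (β : Ω → ℝ), Measurable β →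
      Integrable (fun x => H (S x) * ((tri (⟪ζ, x⟫ + β (S x)) : ℂ) * G x)) (sg n) := by
    intro ζ β hβ
    refine (integrable_const (1 : ℝ)).mono' (hwm ζ β hβ).aestronglyMeasurable (ae_of_all _ fun x => ?_)
    exact (hwb ζ β x).trans (tri_le_one _)
  have b3 : ∀ j : ℕ, LL q (fun x => (-(1 / 2) : ℂ) * (H (S x) *
      ((tri (⟪cc j • η, x⟫ + αj j (S x)) : ℂ) * G x))) ≤
      ENNReal.ofReal (K * B' ^ (q' / q) * ρ ^ j) := by
    intro j
    rw [LL_smul q (by linarith) _ _ (hwm _ _ (hαjm j))]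
    have c1 : ‖(-(1 / 2) : ℂ)‖ₑ ≤ 1 := by
      rw [← ofReal_norm]
      apply ENNReal.ofReal_le_one.2
      rw [norm_neg]
      norm_num
    have c2 := Mul_win hS q' hq' (cc j • η) (hαjm j) hG hG1 _ hMB' H hH hH1
    have c3 := LL_up q q' (by linarith) hqq.le _ (hwm (cc j • η) (αj j) (hαjm j))
    have c4 : ∫⁻ x, ‖H (S x) * ((tri (⟪cc j • η, x⟫ + αj j (S x)) : ℂ) * G x)‖ₑ ∂(sg n) ≤
        ENNReal.ofReal (C * 2 * r0 ^ j) := by
      calc _ ≤ ∫⁻ x, ENNReal.ofReal (tri (⟪cc j • η, x⟫ + αj j (S x))) ∂(sg n) := by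
            apply lintegral_mono
            intro x
            simp only
            rw [← ofReal_norm]
            exact ENNReal.ofReal_le_ofReal (hwb _ _ x)
        _ ≤ ENNReal.ofReal (C * cc j ^ (-(1 / 2) : ℝ)) := hnar (αj j) (cc j) (hαjm j) (hcc0 j)
        _ ≤ _ := by
            apply ENNReal.ofReal_le_ofReal
            rw [mul_assoc]
            exact mul_le_mul_of_nonneg_left (cc_est j) hC.le
    calc ‖(-(1 / 2) : ℂ)‖ₑ * LL q (fun x => H (S x) *
          ((tri (⟪cc j • η, x⟫ + αj j (S x)) : ℂ) * G x))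
        ≤ 1 * (ENNReal.ofReal (C * 2 * r0 ^ j) ^ θ * ENNReal.ofReal B' ^ (q' / q)) := by
          gcongr
          refine c3.trans ?_
          gcongr
      _ = _ := by
          rw [one_mul, ENNReal.ofReal_rpow_of_nonneg (by positivity) hθ0.le,
            ENNReal.ofReal_rpow_of_nonneg hB' (by positivity), ← ENNReal.ofReal_mul (by positivity)]
          congr 1
          rw [Real.mul_rpow (by positivity) (by positivity), hK, hρ, ← Real.rpow_natCast r0 j,
            ← Real.rpow_mul hr00.le, ← Real.rpow_natCast (r0 ^ θ) j, ← Real.rpow_mul hr00.le,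
            mul_comm (j : ℝ) θ]
          ring
  have i0 := hwi ((1 / 4 : ℝ) • η) α hαm
  have i1 := hwi ((1 / 4 : ℝ) • η) _ hα1
  have i2 := fun j => (hwi (cc j • η) _ (hαjm j)).const_mul (-(1 / 2) : ℂ)
  have m0 := hwm ((1 / 4 : ℝ) • η) α hαm
  have m1 := hwm ((1 / 4 : ℝ) • η) _ hα1
  have m2 := fun j => (hwm (cc j • η) _ (hαjm j)).const_mul (-(1 / 2) : ℂ)
  refine (LL_add q (by linarith) _ _ (i0.add i1) (integrable_finsetSum _ fun j _ => i2 j) (m0.add m1)
    (Finset.measurable_sum _ fun j _ => m2 j)).trans ?_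
  refine (add_le_add (LL_add q (by linarith) _ _ i0 i1 m0 m1)
    (LL_sum q (by linarith) _ _ i2 m2)).trans ?_
  refine (add_le_add (add_le_add b1 b2) (Finset.sum_le_sum fun j _ => b3 j)).trans ?_
  have hBp : 0 ≤ B' ^ (q' / q) := by positivity
  rw [← ENNReal.ofReal_add hB hB, ← ENNReal.ofReal_sum_of_nonneg (fun j _ => by positivity),
    ← ENNReal.ofReal_add (by positivity) (Finset.sum_nonneg fun j _ => by positivity)]
  apply ENNReal.ofReal_le_ofReal
  rw [← Finset.mul_sum]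
  have h5 : ∑ j ∈ Finset.range l, ρ ^ j ≤ (1 - ρ)⁻¹ := by
    rw [← tsum_geometric_of_lt_one hρ0.le hρ1]
    exact (summable_geometric_of_lt_one hρ0.le hρ1).sum_le_tsum _ (fun j _ => by positivity)
  calc B + B + K * B' ^ (q' / q) * ∑ j ∈ Finset.range l, ρ ^ j
      ≤ B + B + K * B' ^ (q' / q) * (1 - ρ)⁻¹ := by gcongr
    _ = _ := by ring

/-- graphs are null sets -/
theorem null (hS : Measurable S) (C : ℝ) (η : E n) (hnar : Nar S C η) (R : Ω → ℝ) (hR : Measurable R) :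
    sg n {x | (⟪η, x⟫ : ℝ) = R (S x)} = 0 := by
  set W : Set (E n) := {x | (⟪η, x⟫ : ℝ) = R (S x)} with hW
  have hSm : MeasurableSet W := measurableSet_eq_fun (in_meas _) (hR.comp hS)
  have hle : ∀ c : ℝ, 0 < c → sg n W ≤ ENNReal.ofReal (C * c ^ (-(1 / 2) : ℝ)) := by
    intro c hc
    calc sg n W = ∫⁻ x, W.indicator 1 x ∂(sg n) := (lintegral_indicator_one hSm).symm
      _ ≤ ∫⁻ x, ENNReal.ofReal (tri (⟪c • η, x⟫ + (fun y => -(c * R y)) (S x)))
            ∂(sg n) := by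
          apply lintegral_mono
          intro x
          simp only
          by_cases hx : x ∈ W
          · have h1 : (⟪η, x⟫ : ℝ) = R (S x) := hx
            rw [indicator_of_mem hx, real_inner_smul_left, h1, add_neg_cancel, tri_zero]
            simp
          · rw [indicator_of_notMem hx]
            exact zero_le
      _ ≤ _ := hnar _ c (hR.const_mul c).neg hc
  have ht : Tendsto (fun c : ℝ => ENNReal.ofReal (C * c ^ (-(1 / 2) : ℝ))) atTop (𝓝 0) := by
    have h1 := (tendsto_rpow_neg_atTop (by norm_num : (0 : ℝ) < 1 / 2)).const_mul C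
    rw [mul_zero] at h1
    have h2 := ENNReal.tendsto_ofReal h1
    rwa [ENNReal.ofReal_zero] at h2
  have h1 := ge_of_tendsto ht ((eventually_gt_atTop (0 : ℝ)).mono hle)
  exact le_antisymm h1 zero_le

/-- monotone factors -/
theorem mono_bd (hS : Measurable S) (q : ℝ) (hq : 1 ≤ q) (η : E n) (hηle : ∀ᵐ x ∂(sg n), |(⟪η, x⟫ : ℝ)| ≤ 1)
    (hnull : ∀ R : Ω → ℝ, Measurable R → sg n {x | (⟪η, x⟫ : ℝ) = R (S x)} = 0)
    (G : E n → ℂ) (hG : Measurable G) (hG1 : ∀ x, ‖G x‖ ≤ 1) (A : ℝ≥0∞)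
    (hthr : ∀ R : Ω → ℝ, Measurable R →
      MulS S q (fun x => ((if R (S x) ≤ (⟪η, x⟫ : ℝ) then (1 : ℝ) else 0 : ℝ) : ℂ) * G x) A)
    (g : Ω → ℝ → ℝ) (hg : Measurable (Function.uncurry g)) (h0 : ∀ y s, 0 ≤ g y s)
    (h1 : ∀ y s, g y s ≤ 1) (hmono : ∀ y, Monotone (g y)) :
    MulS S q (fun x => ((g (S x) ⟪η, x⟫ : ℝ) : ℂ) * G x) A := by
  intro H hH hH1
  have hK : Measurable fun x : E n => H (S x) * G x := (hH.comp hS).mul hG
  have hK1 : ∀ x, ‖H (S x) * G x‖ ≤ 1 := by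
    intro x
    rw [norm_mul]
    exact mul_le_one₀ (hH1 _) (norm_nonneg _) (hG1 x)
  have hgm : Measurable fun x : E n => g (S x) (⟪η, x⟫ : ℝ) := by
    have h2 : Measurable fun x : E n => (S x, (⟪η, x⟫ : ℝ)) := hS.prodMk (in_meas η)
    have h3 := hg.comp h2
    exact h3
  have e0 : (fun x => H (S x) * (((g (S x) ⟪η, x⟫ : ℝ) : ℂ) * G x)) =
      fun x => ((g (S x) ⟪η, x⟫ : ℝ) : ℂ) * (H (S x) * G x) := by
    ext x
    ring
  rw [e0]
  have hj := T_joint (fun (l : ℝ) (x : E n) =>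
    ((if l < g (S x) (⟪η, x⟫ : ℝ) then (1 : ℝ) else 0 : ℝ) : ℂ) * (H (S x) * G x))
    (lay_meas hgm hK)
  refine LL_mix (volume.restrict (Ioc (0 : ℝ) 1)) q hq _
    (fun l x => ((if l < g (S x) (⟪η, x⟫ : ℝ) then (1 : ℝ) else 0 : ℝ) : ℂ) * (H (S x) * G x))
    (fun _ => 1) measurable_const (by simp) hj ?_ A ?_
  · intro z
    rw [T_lay _ hgm (fun x => h0 _ _) (fun x => h1 _ _) _ hK hK1 z]
    refine (enorm_integral_le_lintegral_enorm _).trans (le_of_eq ?_)
    apply lintegral_congr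
    intro l
    rw [one_mul]
  · intro l
    set R : Ω → ℝ := fun y => 1 - (volume {t : ℝ | t ∈ Icc (-1 : ℝ) 1 ∧ l < g y t}).toReal with hR
    have hRm : Measurable R := by
      have hset : MeasurableSet {p : Ω × ℝ | p.2 ∈ Icc (-1 : ℝ) 1 ∧ l < g p.1 p.2} := by
        apply MeasurableSet.inter
        · exact measurableSet_Icc.preimage measurable_snd
        · exact measurableSet_lt measurable_const hg
      have h2 : Measurable fun y : Ω => volume (Prod.mk y ⁻¹'
          {p : Ω × ℝ | p.2 ∈ Icc (-1 : ℝ) 1 ∧ l < g p.1 p.2}) := measurable_measure_prodMk_left hset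
      exact (measurable_const.sub h2.ennreal_toReal)
    have h2 : ∀ᵐ x ∂(sg n), (⟪η, x⟫ : ℝ) ≠ R (S x) := by
      rw [ae_iff]
      simp only [ne_eq, not_not]
      exact hnull R hRm
    have hae : (fun x => ((if l < g (S x) (⟪η, x⟫ : ℝ) then (1 : ℝ) else 0 : ℝ) : ℂ) *
        (H (S x) * G x)) =ᵐ[sg n] fun x => H (S x) *
          (((if R (S x) ≤ (⟪η, x⟫ : ℝ) then (1 : ℝ) else 0 : ℝ) : ℂ) * G x) := by
      filter_upwards [h2, hηle] with x hx hx1
      have h3 := level (g (S x)) (hmono _) l (⟪η, x⟫ : ℝ) (R (S x)) (abs_le.1 hx1) rfl hx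
      simp only [h3]
      ring
    rw [LL_congr q hae]
    exact hthr R hRm H hH hH1

lemma Mul_add (hS : Measurable S) (q : ℝ) (hq : 1 ≤ q) (f g : E n → ℂ) (hf : Measurable f) (hg : Measurable g)
    (c d : ℝ) (hfc : ∀ x, ‖f x‖ ≤ c) (hgd : ∀ x, ‖g x‖ ≤ d) (A B : ℝ≥0∞) (hA : MulS S q f A)
    (hB : MulS S q g B) : MulS S q (fun x => f x + g x) (A + B) := by
  intro H hH hH1
  have hHm : Measurable fun x : E n => H (S x) := hH.comp hS
  have i1 : Integrable (fun x => H (S x) * f x) (sg n) := by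
    refine (integrable_const c).mono' (hHm.mul hf).aestronglyMeasurable (ae_of_all _ fun x => ?_)
    rw [norm_mul]
    calc ‖H (S x)‖ * ‖f x‖ ≤ 1 * ‖f x‖ := by
          gcongr
          exact hH1 _
      _ = ‖f x‖ := one_mul _
      _ ≤ c := hfc x
  have i2 : Integrable (fun x => H (S x) * g x) (sg n) := by
    refine (integrable_const d).mono' (hHm.mul hg).aestronglyMeasurable (ae_of_all _ fun x => ?_)
    rw [norm_mul]
    calc ‖H (S x)‖ * ‖g x‖ ≤ 1 * ‖g x‖ := by
          gcongr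
          exact hH1 _
      _ = ‖g x‖ := one_mul _
      _ ≤ d := hgd x
  have e : (fun x => H (S x) * (f x + g x)) = fun x => H (S x) * f x + H (S x) * g x := by
    ext x
    ring
  rw [e]
  exact (LL_add q hq _ _ i1 i2 (hHm.mul hf) (hHm.mul hg)).trans (add_le_add (hA H hH hH1) (hB H hH hH1))

lemma Mul_smul (hS : Measurable S) (q : ℝ) (hq : 1 ≤ q) (c : ℂ) (f : E n → ℂ) (hf : Measurable f) (A : ℝ≥0∞)
    (hA : MulS S q f A) : MulS S q (fun x => c * f x) (‖c‖ₑ * A) := by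
  intro H hH hH1
  have hHm : Measurable fun x : E n => H (S x) := hH.comp hS
  have e : (fun x => H (S x) * (c * f x)) = fun x => c * (H (S x) * f x) := by
    ext x
    ring
  rw [e, LL_smul q hq c (fun x => H (S x) * f x) (hHm.mul hf)]
  exact mul_le_mul' le_rfl (hA H hH hH1)

/-- the class of factors -/
def Fac {Ω : Type*} [MeasurableSpace Ω] (g : Ω → ℝ → ℂ) : Prop :=
  Measurable (Function.uncurry g) ∧ (∀ y s, ‖g y s‖ ≤ 1) ∧
  ∃ κ : Ω → ℝ → ℝ, Measurable (Function.uncurry κ) ∧ (∀ y s, 0 ≤ κ y s) ∧ (∀ y s, κ y s ≤ 1) ∧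
    ∀ y s t, s ≤ t → ‖g y t - g y s‖ ≤ κ y t - κ y s

/-- general factors -/
theorem fac_bd (hS : Measurable S) (q : ℝ) (hq : 1 ≤ q) (η : E n) (hηle : ∀ᵐ x ∂(sg n), |(⟪η, x⟫ : ℝ)| ≤ 1)
    (hnull : ∀ R : Ω → ℝ, Measurable R → sg n {x | (⟪η, x⟫ : ℝ) = R (S x)} = 0)
    (G : E n → ℂ) (hG : Measurable G) (hG1 : ∀ x, ‖G x‖ ≤ 1) (A B : ℝ) (hA : 0 ≤ A) (hB : 0 ≤ B)
    (hthr : ∀ R : Ω → ℝ, Measurable R →
      MulS S q (fun x => ((if R (S x) ≤ (⟪η, x⟫ : ℝ) then (1 : ℝ) else 0 : ℝ) : ℂ) * G x)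
        (ENNReal.ofReal A))
    (hGB : MulS S q G (ENNReal.ofReal B))
    (g : Ω → ℝ → ℂ) (hg : Fac g) :
    MulS S q (fun x => g (S x) ⟪η, x⟫ * G x) (ENNReal.ofReal (8 * A + 2 * B)) := by
  obtain ⟨hgm, hg1, κ, hκm, hκ0, hκ1, hκ⟩ := hg
  have hκmono : ∀ y, Monotone (κ y) := by
    intro y s t hst
    have := (norm_nonneg _).trans (hκ y s t hst)
    linarith
  set u : Ω → ℝ → ℝ := fun y s => ((g y s).re + κ y s + 1) / 3 with hu
  set v : Ω → ℝ → ℝ := fun y s => ((g y s).im + κ y s + 1) / 3 with hv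
  have hum : Measurable (Function.uncurry u) := by
    have h1 : Measurable fun p : Ω × ℝ => (((Function.uncurry g) p).re + (Function.uncurry κ) p + 1) / 3 :=
      (((Complex.measurable_re.comp hgm).add hκm).add_const _).div_const _
    exact h1
  have hvm : Measurable (Function.uncurry v) := by
    have h1 : Measurable fun p : Ω × ℝ => (((Function.uncurry g) p).im + (Function.uncurry κ) p + 1) / 3 :=
      (((Complex.measurable_im.comp hgm).add hκm).add_const _).div_const _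
    exact h1
  have hu0 : ∀ y s, 0 ≤ u y s := by
    intro y s
    have h1 := abs_le.1 ((Complex.abs_re_le_norm (g y s)).trans (hg1 y s))
    have h2 := hκ0 y s
    rw [hu]
    simp only
    linarith [h1.1]
  have hv0 : ∀ y s, 0 ≤ v y s := by
    intro y s
    have h1 := abs_le.1 ((Complex.abs_im_le_norm (g y s)).trans (hg1 y s))
    have h2 := hκ0 y s
    rw [hv]
    simp only
    linarith [h1.1]
  have hu1 : ∀ y s, u y s ≤ 1 := by
    intro y s
    have h1 := abs_le.1 ((Complex.abs_re_le_norm (g y s)).trans (hg1 y s))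
    have h2 := hκ1 y s
    rw [hu]
    simp only
    linarith [h1.2]
  have hv1 : ∀ y s, v y s ≤ 1 := by
    intro y s
    have h1 := abs_le.1 ((Complex.abs_im_le_norm (g y s)).trans (hg1 y s))
    have h2 := hκ1 y s
    rw [hv]
    simp only
    linarith [h1.2]
  have humono : ∀ y, Monotone (u y) := by
    intro y s t hst
    have h1 := (abs_le.1 ((Complex.abs_re_le_norm (g y t - g y s)).trans (hκ y s t hst))).1
    rw [Complex.sub_re] at h1
    rw [hu]
    simp only
    linarith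
  have hvmono : ∀ y, Monotone (v y) := by
    intro y s t hst
    have h1 := (abs_le.1 ((Complex.abs_im_le_norm (g y t - g y s)).trans (hκ y s t hst))).1
    rw [Complex.sub_im] at h1
    rw [hv]
    simp only
    linarith
  have bu := mono_bd hS q hq η hηle hnull G hG hG1 _ hthr u hum hu0 hu1 humono
  have bv := mono_bd hS q hq η hηle hnull G hG hG1 _ hthr v hvm hv0 hv1 hvmono
  have bκ := mono_bd hS q hq η hηle hnull G hG hG1 _ hthr κ hκm hκ0 hκ1 hκmono
  have hpair : Measurable fun x : E n => (S x, (⟪η, x⟫ : ℝ)) := hS.prodMk (in_meas η)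
  have hcm : ∀ w : Ω → ℝ → ℝ, Measurable (Function.uncurry w) →
      Measurable fun x : E n => ((w (S x) ⟪η, x⟫ : ℝ) : ℂ) * G x := by
    intro w hw
    have h3 := hw.comp hpair
    exact (Complex.measurable_ofReal.comp h3).mul hG
  have hcb : ∀ w : Ω → ℝ → ℝ, (∀ y s, 0 ≤ w y s) → (∀ y s, w y s ≤ 1) →
      ∀ x : E n, ‖((w (S x) ⟪η, x⟫ : ℝ) : ℂ) * G x‖ ≤ 1 := by
    intro w h0 h1 x
    rw [norm_mul, Complex.norm_real, Real.norm_of_nonneg (h0 _ _)]
    exact mul_le_one₀ (h1 _ _) (norm_nonneg _) (hG1 x)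
  have mu := hcm u hum
  have mv := hcm v hvm
  have mκ := hcm κ hκm
  have nu := hcb u hu0 hu1
  have nv := hcb v hv0 hv1
  have nκ := hcb κ hκ0 hκ1
  have bb : ∀ (c : ℂ) (C : ℝ) (f : E n → ℂ), (∀ x, ‖f x‖ ≤ 1) → ‖c‖ ≤ C → ∀ x, ‖c * f x‖ ≤ C := by
    intro c C f hf hc x
    rw [norm_mul]
    calc ‖c‖ * ‖f x‖ ≤ ‖c‖ * 1 := by
          gcongr
          exact hf x
      _ ≤ C := by rw [mul_one]; exact hc
  have bn : ∀ (c : ℂ) (C : ℝ) (f : E n → ℂ) (D : ℝ), Measurable f → 0 ≤ D → ‖c‖ ≤ C →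
      MulS S q f (ENNReal.ofReal D) → MulS S q (fun x => c * f x) (ENNReal.ofReal (C * D)) := by
    intro c C f D hf hD hc hM H hH hH1
    refine (Mul_smul hS q hq c f hf _ hM H hH hH1).trans ?_
    rw [← ofReal_norm, ← ENNReal.ofReal_mul (norm_nonneg _)]
    apply ENNReal.ofReal_le_ofReal
    gcongr
  have n3 : ‖(3 : ℂ)‖ ≤ 3 := by norm_num
  have n3i : ‖(3 * I : ℂ)‖ ≤ 3 := by
    rw [norm_mul, Complex.norm_I]
    norm_num
  have n1i : ‖(-(1 + I) : ℂ)‖ ≤ 2 := by
    rw [norm_neg]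
    refine (norm_add_le _ _).trans ?_
    rw [Complex.norm_I, norm_one]
    norm_num
  have t1 := bn 3 3 _ A mu hA n3 bu
  have t2 := bn (3 * I) 3 _ A mv hA n3i bv
  have t3 := bn (-(1 + I)) 2 _ A mκ hA n1i bκ
  have t4 := bn (-(1 + I)) 2 G B hG hB n1i hGB
  have s1 := Mul_add hS q hq _ _ (mu.const_mul 3) (mv.const_mul (3 * I)) 3 3 (bb 3 3 _ nu n3)
    (bb _ 3 _ nv n3i) _ _ t1 t2
  have s2 := Mul_add hS q hq _ _ (mκ.const_mul (-(1 + I))) (hG.const_mul (-(1 + I))) 2 2 (bb _ 2 _ nκ n1i)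
    (bb _ 2 _ hG1 n1i) _ _ t3 t4
  have nb : ∀ (f h : E n → ℂ) (c d : ℝ), (∀ x, ‖f x‖ ≤ c) → (∀ x, ‖h x‖ ≤ d) →
      ∀ x, ‖f x + h x‖ ≤ c + d := fun f h c d hf hh x => (norm_add_le _ _).trans (add_le_add (hf x) (hh x))
  have s3 := Mul_add hS q hq _ _ ((mu.const_mul 3).add (mv.const_mul (3 * I)))
    ((mκ.const_mul (-(1 + I))).add (hG.const_mul (-(1 + I)))) (3 + 3) (2 + 2)
    (nb _ _ 3 3 (bb 3 3 _ nu n3) (bb _ 3 _ nv n3i)) (nb _ _ 2 2 (bb _ 2 _ nκ n1i) (bb _ 2 _ hG1 n1i)) _ _ s1 s2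
  intro H hH hH1
  have s4 := s3 H hH hH1
  have e : (fun x => H (S x) * (g (S x) ⟪η, x⟫ * G x)) =
      fun x => H (S x) * (3 * (((u (S x) ⟪η, x⟫ : ℝ) : ℂ) * G x) +
        3 * I * (((v (S x) ⟪η, x⟫ : ℝ) : ℂ) * G x) +
        (-(1 + I) * (((κ (S x) ⟪η, x⟫ : ℝ) : ℂ) * G x) + -(1 + I) * G x)) := by
    ext x
    have e1 : g (S x) ⟪η, x⟫ = (((g (S x) ⟪η, x⟫).re : ℝ) : ℂ) +
        (((g (S x) ⟪η, x⟫).im : ℝ) : ℂ) * I := (Complex.re_add_im _).symm
    rw [hu, hv]
    simp only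
    rw [e1]
    simp only [Complex.add_re, Complex.add_im, Complex.mul_re, Complex.mul_im, Complex.ofReal_re,
      Complex.ofReal_im, Complex.I_re, Complex.I_im]
    push_cast
    ring
  rw [e]
  refine s4.trans (le_of_eq ?_)
  rw [← ENNReal.ofReal_add (by positivity) (by positivity), ← ENNReal.ofReal_add (by positivity)
    (by positivity), ← ENNReal.ofReal_add (by positivity) (by positivity)]
  congr 1
  ring

end Pool.Agent.Y295.BV
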