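import Mathlib
import Pool.Agent.Y61.MB.M5
import Pool.Agent.Y295.BV.A
set_option autoImplicit false
set_option linter.unusedSectionVars false

/-! Orthogonal decompositions: the map `S` and narrow windows. -/

namespace Pool.Agent.Y295.BV

open MeasureTheory Set Complex Filter Topology
open scoped ENNReal NNReal RealInnerProductSpace
open Pool.Agent.H789R2.FR (E sg T sg_finite sg_ae sg_inv)
open Pool.Agent.H438R2.PD (T_meas' P1 P2 P2_meas T_le)
open Pool.Agent.H438R2.BR (Phi J J_inner)
open Pool.Agent.W354.LS (tri tri_nonneg tri_le_one tri_zero)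
open Pool.Agent.Y295.NS (tri_cont)
open Pool.Agent.Y295.SP (J_P in_split in_J narrow J_zero unit_dir)
open Pool.Agent.Y61.MB (Orth Radial adapted)

variable {n r : ℕ}

/-- coordinates adapted to a subspace -/
theorem coords' (k m : ℕ) (V : Submodule ℝ (E (k + m))) (hV : Module.finrank ℝ V = m) :
    ∃ (Λ : E (k + m) ≃ₗᵢ[ℝ] E (k + m)) (ι : E m → E (k + m)), Measurable ι ∧
      (∀ x, V.starProjection x = ι (P2 k m (Λ x))) ∧
      ∀ x, ‖P1 k m (Λ x)‖ = ‖Vᗮ.starProjection x‖ := by
  have hVo : Module.finrank ℝ Vᗮ = k := by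
    have h1 := V.finrank_add_finrank_orthogonal
    rw [hV, finrank_euclideanSpace_fin] at h1
    omega
  set b : OrthonormalBasis (Fin m) ℝ V := (stdOrthonormalBasis ℝ V).reindex (finCongr hV) with hb
  set c : OrthonormalBasis (Fin k) ℝ Vᗮ := (stdOrthonormalBasis ℝ Vᗮ).reindex (finCongr hVo)
    with hc
  let L : E (k + m) →ₗ[ℝ] E (k + m) :=
    { toFun := fun x => J (c.repr (Vᗮ.orthogonalProjectionOnto x))
        (b.repr (V.orthogonalProjectionOnto x))
      map_add' := by
        intro x y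
        ext i
        simp only [map_add]
        refine Fin.addCases (fun j => ?_) (fun j => ?_) i
        · simp [J, Fin.append_left]
        · simp [J, Fin.append_right]
      map_smul' := by
        intro a x
        ext i
        simp only [map_smul]
        refine Fin.addCases (fun j => ?_) (fun j => ?_) i
        · simp [J, Fin.append_left]
        · simp [J, Fin.append_right] }
  have hnorm : ∀ x, ‖L x‖ = ‖x‖ := by
    intro x
    have h1 : ‖L x‖ ^ 2 = ‖x‖ ^ 2 := by
      change ‖J (c.repr (Vᗮ.orthogonalProjectionOnto x))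
        (b.repr (V.orthogonalProjectionOnto x))‖ ^ 2 = ‖x‖ ^ 2
      rw [← real_inner_self_eq_norm_sq, J_inner, real_inner_self_eq_norm_sq,
        real_inner_self_eq_norm_sq, LinearIsometryEquiv.norm_map, LinearIsometryEquiv.norm_map,
        Submodule.norm_sq_eq_add_norm_sq_projection x V]
      ring
    exact (sq_eq_sq₀ (norm_nonneg _) (norm_nonneg _)).1 h1
  let Li : E (k + m) →ₗᵢ[ℝ] E (k + m) := ⟨L, hnorm⟩
  refine ⟨Li.toLinearIsometryEquiv rfl, fun y => ((b.repr.symm y : V) : E (k + m)), ?_, ?_, ?_⟩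
  · have h1 : Continuous fun y : E m => ((b.repr.symm y : V) : E (k + m)) :=
      continuous_subtype_val.comp b.repr.symm.continuous
    exact h1.measurable
  · intro x
    have h2 : P2 k m (Li.toLinearIsometryEquiv rfl x) = b.repr (V.orthogonalProjectionOnto x) := by
      change P2 k m (J (c.repr (Vᗮ.orthogonalProjectionOnto x))
        (b.repr (V.orthogonalProjectionOnto x))) = _
      ext j
      simp [J, P2, Fin.append_right]
    rw [h2]
    simp only
    rw [LinearIsometryEquiv.symm_apply_apply]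
    rfl
  · intro x
    have h2 : P1 k m (Li.toLinearIsometryEquiv rfl x) = c.repr (Vᗮ.orthogonalProjectionOnto x) := by
      change P1 k m (J (c.repr (Vᗮ.orthogonalProjectionOnto x))
        (b.repr (V.orthogonalProjectionOnto x))) = _
      ext j
      simp [J, P1, Fin.append_left]
    rw [h2, LinearIsometryEquiv.norm_map]
    rfl

/-- the map with the same fibres as the lengths of the projections -/
noncomputable def SV (V : Fin r → Submodule ℝ (E n)) (e : Fin r → E n) (x : E n) : E n :=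
  ∑ i, if Module.finrank ℝ (V i) = 1 then (V i).starProjection x else ‖(V i).starProjection x‖ • e i

lemma SV_cont (V : Fin r → Submodule ℝ (E n)) (e : Fin r → E n) : Continuous (SV V e) := by
  unfold SV
  refine continuous_finsetSum _ fun i _ => ?_
  split_ifs
  · exact (V i).starProjection.continuous
  · exact ((V i).starProjection.continuous.norm).smul continuous_const

/-- unit vectors in the blocks -/
def Un (V : Fin r → Submodule ℝ (E n)) (e : Fin r → E n) : Prop := ∀ i, e i ∈ V i ∧ ‖e i‖ = 1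

lemma exists_un (V : Fin r → Submodule ℝ (E n)) (hV : Orth V) : ∃ e, Un V e := by
  have h : ∀ i, ∃ e : E n, e ∈ V i ∧ ‖e‖ = 1 := by
    intro i
    obtain ⟨v, hv, hv0⟩ := Submodule.exists_mem_ne_zero_of_ne_bot (hV.1 i)
    refine ⟨‖v‖⁻¹ • v, (V i).smul_mem _ hv, ?_⟩
    rw [norm_smul, norm_inv, norm_norm, inv_mul_cancel₀ (norm_ne_zero_iff.2 hv0)]
  choose e he using h
  exact ⟨e, he⟩

lemma proj_ne (V : Fin r → Submodule ℝ (E n)) (hV : Orth V) {i j : Fin r} (hij : i ≠ j) {v : E n}
    (hv : v ∈ V j) : (V i).starProjection v = 0 := by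
  apply (Submodule.starProjection_apply_eq_zero_iff _).2
  rw [Submodule.mem_orthogonal]
  intro u hu
  exact Submodule.IsOrtho.inner_eq (hV.2.1 i j hij) hu hv

lemma proj_sum (V : Fin r → Submodule ℝ (E n)) (hV : Orth V) (w : Fin r → E n) (hw : ∀ i, w i ∈ V i)
    (i : Fin r) : (V i).starProjection (∑ j, w j) = w i := by
  rw [map_sum, Finset.sum_eq_single i]
  · exact Submodule.starProjection_eq_self_iff.2 (hw i)
  · intro j _ hj
    exact proj_ne V hV (Ne.symm hj) (hw j)
  · intro h
    exact absurd (Finset.mem_univ i) h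

lemma sum_proj (V : Fin r → Submodule ℝ (E n)) (hV : Orth V) (x : E n) :
    ∑ i, (V i).starProjection x = x := by
  have hO : OrthogonalFamily ℝ (fun i => V i) fun i => (V i).subtypeₗᵢ := by
    rw [orthogonalFamily_iff_pairwise]
    exact fun i j hij => hV.2.1 i j hij
  have h1 := hO.sum_projection_of_mem_iSup x (by rw [hV.2.2]; trivial)
  exact h1

lemma term_mem (V : Fin r → Submodule ℝ (E n)) (e : Fin r → E n) (he : Un V e) (x : E n) (i : Fin r) :
    (if Module.finrank ℝ (V i) = 1 then (V i).starProjection x else ‖(V i).starProjection x‖ • e i) ∈ V i := by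
  split_ifs
  · exact Submodule.starProjection_apply_mem _ _
  · exact (V i).smul_mem _ (he i).1

lemma proj_SV (V : Fin r → Submodule ℝ (E n)) (hV : Orth V) (e : Fin r → E n) (he : Un V e) (x : E n)
    (i : Fin r) : (V i).starProjection (SV V e x) =
      if Module.finrank ℝ (V i) = 1 then (V i).starProjection x else ‖(V i).starProjection x‖ • e i := by
  unfold SV
  exact proj_sum V hV _ (term_mem V e he x) i

lemma norm_proj_SV (V : Fin r → Submodule ℝ (E n)) (hV : Orth V) (e : Fin r → E n) (he : Un V e) (x : E n)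
    (i : Fin r) : ‖(V i).starProjection (SV V e x)‖ = ‖(V i).starProjection x‖ := by
  rw [proj_SV V hV e he]
  split_ifs
  · rfl
  · rw [norm_smul, norm_norm, (he i).2, mul_one]

/-- a function of the lengths of the projections, general codomain -/
def Rad {α : Type*} (V : Fin r → Submodule ℝ (E n)) (F : E n → α) : Prop :=
  ∀ x y : E n, (∀ i, ‖(V i).starProjection x‖ = ‖(V i).starProjection y‖) →
    (∀ i, Module.finrank ℝ (V i) = 1 → (V i).starProjection x = (V i).starProjection y) →
    F x = F y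

lemma rad_SV {α : Type*} (V : Fin r → Submodule ℝ (E n)) (hV : Orth V) (e : Fin r → E n) (he : Un V e)
    (F : E n → α) (hF : Rad V F) (x : E n) : F x = F (SV V e x) := by
  apply hF
  · intro i
    rw [norm_proj_SV V hV e he]
  · intro i hi
    rw [proj_SV V hV e he, if_pos hi]

lemma SV_rad (V : Fin r → Submodule ℝ (E n)) (e : Fin r → E n) : Rad V (SV V e) := by
  intro x y h1 h2
  unfold SV
  refine Finset.sum_congr rfl fun i _ => ?_
  split_ifs with h
  · exact h2 i h
  · rw [h1 i]

/-- the map `S` on the sphere is determined by the projection orthogonal to one block -/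
noncomputable def SP' (V : Fin r → Submodule ℝ (E n)) (e : Fin r → E n) (i : Fin r) (z : E n) : E n :=
  ∑ j, if Module.finrank ℝ (V j) = 1 then (V j).starProjection z
    else if j = i then √(1 - ‖z‖ ^ 2) • e j else ‖(V j).starProjection z‖ • e j

lemma SP'_meas (V : Fin r → Submodule ℝ (E n)) (e : Fin r → E n) (i : Fin r) : Measurable (SP' V e i) := by
  have h : Continuous (SP' V e i) := by
    unfold SP'
    refine continuous_finsetSum _ fun j _ => ?_
    split_ifs
    · exact (V j).starProjection.continuous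
    · exact (by fun_prop : Continuous fun z : E n => √(1 - ‖z‖ ^ 2)).smul continuous_const
    · exact ((V j).starProjection.continuous.norm).smul continuous_const
  exact h.measurable

lemma proj_perp (V : Fin r → Submodule ℝ (E n)) (hV : Orth V) {i j : Fin r} (hij : j ≠ i) (x : E n) :
    (V j).starProjection ((V i)ᗮ.starProjection x) = (V j).starProjection x := by
  have h1 : (V i)ᗮ.starProjection x = x - (V i).starProjection x := by
    have h2 := (V i).starProjection_add_starProjection_orthogonal x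
    exact eq_sub_of_add_eq' h2
  rw [h1, map_sub, proj_ne V hV hij (Submodule.starProjection_apply_mem (V i) x), sub_zero]

lemma SV_eq (V : Fin r → Submodule ℝ (E n)) (hV : Orth V) (e : Fin r → E n) (i : Fin r)
    (hi : Module.finrank ℝ (V i) ≠ 1) (x : E n) (hx : ‖x‖ = 1) :
    SV V e x = SP' V e i ((V i)ᗮ.starProjection x) := by
  unfold SV SP'
  refine Finset.sum_congr rfl fun j _ => ?_
  by_cases hj : j = i
  · subst hj
    rw [if_neg hi, if_neg hi, if_pos rfl]
    congr 1
    have h1 := Submodule.norm_sq_eq_add_norm_sq_starProjection x (V j)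
    rw [hx] at h1
    have h2 : 1 - ‖(V j)ᗮ.starProjection x‖ ^ 2 = ‖(V j).starProjection x‖ ^ 2 := by linarith
    rw [h2, Real.sqrt_sq (norm_nonneg _)]
  · rw [proj_perp V hV hj, if_neg hj]

/-- narrow windows: one block -/
theorem nar_block (k m r : ℕ) (hk : 2 ≤ k) (hm : 1 ≤ m) : ∃ C : ℝ, 0 < C ∧
    ∀ (V : Fin r → Submodule ℝ (E (k + m))), Orth V → ∀ (e : Fin r → E (k + m)) (i : Fin r),
    Module.finrank ℝ (V i) = k → ∀ (η : E (k + m)) (δ : ℝ), 0 < δ → δ ≤ ‖(V i).starProjection η‖ →
    Nar (SV V e) (C * δ ^ (-(1 / 2) : ℝ)) η := by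
  obtain ⟨C, hC, hnar⟩ := narrow k m hk hm
  refine ⟨C, hC, ?_⟩
  intro V hV e i hi η δ hδ hη α c hα hc
  have hVo : Module.finrank ℝ (V i)ᗮ = m := by
    have h1 := (V i).finrank_add_finrank_orthogonal
    rw [hi, finrank_euclideanSpace_fin] at h1
    omega
  obtain ⟨Λ, ι, hι, hΛ1, hΛ2⟩ := coords' k m (V i)ᗮ hVo
  simp only [Submodule.orthogonal_orthogonal] at hΛ2
  obtain ⟨u, hu, ha⟩ := unit_dir hk (P1 k m (Λ η))
  set a : ℝ := ‖P1 k m (Λ η)‖ with hadef
  have ha0 : δ ≤ a := by rw [hadef, hΛ2]; exact hη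
  have hapos : 0 < a := lt_of_lt_of_le hδ ha0
  set b : E m := P2 k m (Λ η) with hb
  set α' : E m → ℝ := fun y => c * ⟪b, y⟫ + α (SP' V e i (ι y)) with hα'
  have hα'm : Measurable α' := by
    have h1 : Measurable fun y : E m => c * (⟪b, y⟫ : ℝ) :=
      (by fun_prop : Continuous fun y : E m => c * (⟪b, y⟫ : ℝ)).measurable
    exact h1.add (hα.comp ((SP'_meas V e i).comp hι))
  have hi1 : Module.finrank ℝ (V i) ≠ 1 := by omega
  have hae : ∀ᵐ x ∂(sg (k + m)), ENNReal.ofReal (tri (⟪c • η, x⟫ + α (SV V e x))) =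
      (fun z : E (k + m) => ENNReal.ofReal (tri (⟪(c * a) • (J u (0 : E m)), z⟫ + α' (P2 k m z)))) (Λ x) := by
    filter_upwards [sg_ae (k + m)] with x hx
    congr 2
    rw [SV_eq V hV e i hi1 x hx, hΛ1 x, hα']
    simp only
    have e1 : (⟪c • η, x⟫ : ℝ) = c * ⟪Λ η, Λ x⟫ := by
      rw [LinearIsometryEquiv.inner_map_map, real_inner_smul_left]
    rw [e1, in_split, ← hb, ha, real_inner_smul_left, real_inner_smul_left, in_J]
    ring
  rw [lintegral_congr_ae hae]
  have hm1 : Measurable fun z : E (k + m) =>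
      ENNReal.ofReal (tri (⟪(c * a) • (J u (0 : E m)), z⟫ + α' (P2 k m z))) := by
    exact (tri_cont.measurable.comp ((in_meas _).add (hα'm.comp (P2_meas k m)))).ennreal_ofReal
  rw [(sg_inv Λ).lintegral_comp hm1]
  refine (hnar u α' (c * a) hu hα'm (by positivity)).trans ?_
  apply ENNReal.ofReal_le_ofReal
  have h3 : (c * a) ^ (-(1 / 2) : ℝ) ≤ (c * δ) ^ (-(1 / 2) : ℝ) :=
    Real.rpow_le_rpow_of_nonpos (by positivity) (by gcongr) (by norm_num)
  rw [Real.mul_rpow hc.le hδ.le] at h3
  calc C * (c * a) ^ (-(1 / 2) : ℝ) ≤ C * (c ^ (-(1 / 2) : ℝ) * δ ^ (-(1 / 2) : ℝ)) := by gcongr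
    _ = _ := by ring

lemma Nar_mono {Ω : Type*} [MeasurableSpace Ω] {S : E n → Ω} {C C' : ℝ} (h : C ≤ C') {η : E n}
    (hN : Nar S C η) : Nar S C' η := by
  intro α c hα hc
  refine (hN α c hα hc).trans (ENNReal.ofReal_le_ofReal ?_)
  gcongr

/-- a large component -/
lemma large (V : Fin r → Submodule ℝ (E n)) (hV : Orth V) (η : E n) (hη : ‖η‖ = 1) :
    ∃ i, ((r : ℝ) + 1)⁻¹ ≤ ‖(V i).starProjection η‖ := by
  by_contra hc
  push Not at hc
  have h1 : ‖η‖ ≤ ∑ i, ‖(V i).starProjection η‖ := by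
    conv_lhs => rw [← sum_proj V hV η]
    exact norm_sum_le _ _
  have h2 : ∑ i, ‖(V i).starProjection η‖ ≤ ∑ _i : Fin r, ((r : ℝ) + 1)⁻¹ :=
    Finset.sum_le_sum fun i _ => (hc i).le
  rw [Finset.sum_const, Finset.card_univ, Fintype.card_fin, nsmul_eq_mul] at h2
  have h3 : (r : ℝ) * ((r : ℝ) + 1)⁻¹ < 1 := by
    rw [← div_eq_mul_inv, div_lt_one (by positivity)]
    linarith
  linarith

/-- narrow windows -/
theorem nar_all (n r : ℕ) (hr : 2 ≤ r) : ∃ C : ℝ, 0 < C ∧ ∀ (V : Fin r → Submodule ℝ (E n)), Orth V →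
    ∀ (e : Fin r → E n) (η : E n), ‖η‖ = 1 →
    (∀ i, Module.finrank ℝ (V i) = 1 → (V i).starProjection η = 0) → Nar (SV V e) C η := by
  have hex : ∀ k : ℕ, ∃ C : ℝ, 0 < C ∧ (2 ≤ k → k + 1 ≤ n → ∀ (V : Fin r → Submodule ℝ (E n)), Orth V →
      ∀ (e : Fin r → E n) (i : Fin r), Module.finrank ℝ (V i) = k → ∀ (η : E n) (δ : ℝ), 0 < δ →
      δ ≤ ‖(V i).starProjection η‖ → Nar (SV V e) (C * δ ^ (-(1 / 2) : ℝ)) η) := by
    intro k
    by_cases h : 2 ≤ k ∧ k + 1 ≤ n
    · obtain ⟨m, rfl⟩ : ∃ m, n = k + m := ⟨n - k, by omega⟩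
      obtain ⟨C, hC, h1⟩ := nar_block k m r h.1 (by omega)
      exact ⟨C, hC, fun _ _ => h1⟩
    · exact ⟨1, one_pos, fun h1 h2 => absurd ⟨h1, h2⟩ h⟩
  choose C hC hN using hex
  set δ : ℝ := ((r : ℝ) + 1)⁻¹ with hδ
  have hδ0 : 0 < δ := by positivity
  set K : ℝ := ∑ k ∈ Finset.range (n + 1), C k with hK
  have hK0 : 0 < K := Finset.sum_pos (fun k _ => hC k) ⟨0, by simp⟩
  refine ⟨K * δ ^ (-(1 / 2) : ℝ), by positivity, ?_⟩
  intro V hV e η hη h0
  obtain ⟨i, hi⟩ := large V hV η hη
  have hne1 : Module.finrank ℝ (V i) ≠ 1 := by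
    intro h1
    rw [h0 i h1, norm_zero] at hi
    linarith
  have hne0 : Module.finrank ℝ (V i) ≠ 0 := by
    intro h1
    exact hV.1 i (Submodule.finrank_eq_zero.1 h1)
  obtain ⟨j, hj⟩ : ∃ j : Fin r, i ≠ j := by
    have h1 : Nontrivial (Fin r) := Fin.nontrivial_iff_two_le.2 hr
    exact (exists_ne i).imp fun _ h => h.symm
  have hle : Module.finrank ℝ (V i) + 1 ≤ n := by
    have h1 := (V i).finrank_add_finrank_orthogonal
    rw [finrank_euclideanSpace_fin] at h1
    have h2 : V j ≤ (V i)ᗮ := (hV.2.1 j i hj.symm)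
    have h3 := Submodule.finrank_mono h2
    have h4 : Module.finrank ℝ (V j) ≠ 0 := by
      intro h5
      exact hV.1 j (Submodule.finrank_eq_zero.1 h5)
    omega
  refine Nar_mono ?_ (hN _ (by omega) hle V hV e i rfl η δ hδ0 hi)
  have h5 : C (Module.finrank ℝ (V i)) ≤ K := by
    rw [hK]
    refine Finset.single_le_sum (f := C) (fun k _ => (hC k).le) ?_
    rw [Finset.mem_range]
    omega
  gcongr

end Pool.Agent.Y295.BV
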