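import Mathlib
import Pool.Agent.Y295.BV.B
set_option autoImplicit false
set_option linter.unusedSectionVars false

/-! Products of factors of bounded variation. -/

namespace Pool.Agent.Y295.BV

open MeasureTheory Set Complex Filter Topology
open scoped ENNReal NNReal RealInnerProductSpace
open Pool.Agent.H789R2.FR (E sg T sg_finite sg_ae sg_inv)
open Pool.Agent.H438R2.PD (T_meas' T_le)
open Pool.Agent.Y295.SP (LL LL_smul)
open Pool.Agent.Y61.MB (Orth Radial RTC RCl)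

variable {n r : ℕ}

/-- the component of a vector in the one-dimensional blocks -/
noncomputable def lowp (V : Fin r → Submodule ℝ (E n)) (η : E n) : E n :=
  ∑ i, if Module.finrank ℝ (V i) = 1 then (V i).starProjection η else 0

lemma lowp_proj (V : Fin r → Submodule ℝ (E n)) (hV : Orth V) (η : E n) (i : Fin r)
    (hi : Module.finrank ℝ (V i) = 1) : (V i).starProjection (η - lowp V η) = 0 := by
  unfold lowp
  rw [map_sub, proj_sum V hV _ (fun j => ?_) i, if_pos hi, sub_self]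
  split_ifs
  · exact Submodule.starProjection_apply_mem _ _
  · exact (V j).zero_mem

lemma lowp_inner (V : Fin r → Submodule ℝ (E n)) (hV : Orth V) (e : Fin r → E n) (he : Un V e)
    (η x : E n) : (⟪lowp V η, x⟫ : ℝ) = ⟪lowp V η, SV V e x⟫ := by
  unfold lowp
  rw [sum_inner, sum_inner]
  refine Finset.sum_congr rfl fun i _ => ?_
  split_ifs with h
  · rw [Submodule.inner_starProjection_left_eq_right, Submodule.inner_starProjection_left_eq_right,
      proj_SV V hV e he, if_pos h]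
  · rw [inner_zero_left, inner_zero_left]

/-- one more factor -/
theorem step (n r : ℕ) (hr : 2 ≤ r) (q q' : ℝ) (hq' : 1 ≤ q') (hqq : q' < q) (B B' : ℝ)
    (hB : 0 ≤ B) (hB' : 0 ≤ B') : ∃ B₁ : ℝ, 0 ≤ B₁ ∧ ∀ (V : Fin r → Submodule ℝ (E n)), Orth V →
    ∀ e : Fin r → E n, Un V e → ∀ (G : E n → ℂ), Measurable G →
    (∀ x, ‖G x‖ ≤ 1) → MulS (SV V e) q G (ENNReal.ofReal B) → MulS (SV V e) q' G (ENNReal.ofReal B') →
    ∀ (η : E n) (g : E n → ℝ → ℂ), Fac g →
    MulS (SV V e) q (fun x => g (SV V e x) ⟪η, x⟫ * G x) (ENNReal.ofReal B₁) := by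
  obtain ⟨C, hC, hnar⟩ := nar_all n r hr
  obtain ⟨D, hD, hthr⟩ := thr (n := n) (Ω := E n) q q' hq' hqq C hC
  have hBp : 0 ≤ B' ^ (q' / q) := Real.rpow_nonneg hB' _
  have hA : 0 ≤ 2 * B + D * B' ^ (q' / q) := by positivity
  refine ⟨8 * (2 * B + D * B' ^ (q' / q)) + 2 * B, by positivity, ?_⟩
  intro V hV e he G hG hG1 hM hM' η g hg
  have hS : Measurable (SV V e) := (SV_cont V e).measurable
  set b : E n := lowp V η with hb
  set a : E n := η - b with ha
  have hsplit : ∀ x, (⟪η, x⟫ : ℝ) = ⟪a, x⟫ + ⟪b, SV V e x⟫ := by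
    intro x
    rw [hb, ← lowp_inner V hV e he, ← hb, ← inner_add_left, ha, sub_add_cancel]
  by_cases ha0 : a = 0
  · intro H hH hH1
    have e1 : (fun x => H (SV V e x) * (g (SV V e x) ⟪η, x⟫ * G x)) =
        fun x => (fun y => H y * g y ⟪b, y⟫) (SV V e x) * G x := by
      ext x
      rw [hsplit, ha0, inner_zero_left, zero_add]
      ring
    rw [e1]
    refine (hM (fun y => H y * g y ⟪b, y⟫) (hH.mul ?_) ?_).trans ?_
    · have h1 : Measurable fun y : E n => (y, (⟪b, y⟫ : ℝ)) := measurable_id.prodMk (in_meas b)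
      have h2 := hg.1.comp h1
      exact h2
    · intro y
      rw [norm_mul]
      exact mul_le_one₀ (hH1 y) (norm_nonneg _) (hg.2.1 _ _)
    · apply ENNReal.ofReal_le_ofReal
      linarith
  set c : ℝ := ‖a‖ with hc
  have hc0 : 0 < c := norm_pos_iff.2 ha0
  set η₁ : E n := c⁻¹ • a with hη₁
  have hη1 : ‖η₁‖ = 1 := by
    rw [hη₁, norm_smul, norm_inv, Real.norm_of_nonneg hc0.le, ← hc, inv_mul_cancel₀ hc0.ne']
  have hN : Nar (SV V e) C η₁ := by
    refine hnar V hV e η₁ hη1 fun i hi => ?_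
    rw [hη₁, map_smul, ha, hb, lowp_proj V hV η i hi, smul_zero]
  set g' : E n → ℝ → ℂ := fun y s => g y (c * s + ⟪b, y⟫) with hg'
  have hφ : Measurable fun p : E n × ℝ => (p.1, c * p.2 + (⟪b, p.1⟫ : ℝ)) := by
    have h1 : Measurable fun p : E n × ℝ => c * p.2 + (⟪b, p.1⟫ : ℝ) :=
      (by fun_prop : Continuous fun p : E n × ℝ => c * p.2 + (⟪b, p.1⟫ : ℝ)).measurable
    exact measurable_fst.prodMk h1
  have hfac : Fac g' := by
    obtain ⟨hgm, hg1, κ, hκm, hκ0, hκ1, hκ⟩ := hg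
    refine ⟨?_, fun y s => hg1 _ _, fun y s => κ y (c * s + ⟪b, y⟫), ?_, fun y s => hκ0 _ _,
      fun y s => hκ1 _ _, ?_⟩
    · have h1 := hgm.comp hφ
      exact h1
    · have h1 := hκm.comp hφ
      exact h1
    · intro y s t hst
      apply hκ
      have := mul_le_mul_of_nonneg_left hst hc0.le
      linarith
  have he' : ∀ x : E n, g (SV V e x) ⟪η, x⟫ = g' (SV V e x) ⟪η₁, x⟫ := by
    intro x
    rw [hg']
    simp only
    rw [hsplit, hη₁, real_inner_smul_left, ← mul_assoc, mul_inv_cancel₀ hc0.ne', one_mul]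
  simp only [he']
  refine fac_bd hS q (by linarith) η₁ ?_ (null hS C η₁ hN) G hG hG1 _ B hA hB ?_ hM g' hfac
  · filter_upwards [sg_ae n] with x hx
    exact in_le η₁ hη1 hx
  · intro R hR
    exact hthr (SV V e) hS η₁ R G B B' hη1 hN hR hG hG1 hB hB' hM hM'

/-- products -/
theorem prod_bd (n r : ℕ) (hr : 2 ≤ r) (Adm : ℝ → Prop) (h1 : ∀ q, Adm q → 1 ≤ q)
    (hd : ∀ q, Adm q → ∃ q', q' < q ∧ Adm q')
    (base : ∀ q, Adm q → ∃ B : ℝ, 0 ≤ B ∧ ∀ (V : Fin r → Submodule ℝ (E n)), Orth V →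
      ∀ e : Fin r → E n, Un V e → MulS (SV V e) q (fun _ => 1) (ENNReal.ofReal B)) (N : ℕ) :
    ∀ q, Adm q → ∃ B : ℝ, 0 ≤ B ∧ ∀ (V : Fin r → Submodule ℝ (E n)), Orth V →
      ∀ e : Fin r → E n, Un V e → ∀ (η : Fin N → E n) (g : Fin N → E n → ℝ → ℂ),
      (∀ j, Fac (g j)) →
      MulS (SV V e) q (fun x => ∏ j, g j (SV V e x) ⟪η j, x⟫) (ENNReal.ofReal B) := by
  induction N with
  | zero =>
    intro q hq
    obtain ⟨B, hB, h⟩ := base q hq
    refine ⟨B, hB, fun V hV e he η g hg => ?_⟩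
    simp only [Finset.univ_eq_empty, Finset.prod_empty]
    exact h V hV e he
  | succ N ih =>
    intro q hq
    obtain ⟨B, hB, h⟩ := ih q hq
    obtain ⟨q', hqq, hq'⟩ := hd q hq
    obtain ⟨B', hB', h'⟩ := ih q' hq'
    obtain ⟨B₁, hB₁, hst⟩ := step n r hr q q' (h1 q' hq') hqq B B' hB hB'
    refine ⟨B₁, hB₁, fun V hV e he η g hg => ?_⟩
    have hS : Measurable (SV V e) := (SV_cont V e).measurable
    simp only [Fin.prod_univ_succ]
    refine hst V hV e he (fun x => ∏ j : Fin N, g j.succ (SV V e x) ⟪η j.succ, x⟫) ?_ ?_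
      (h V hV e he _ _ fun j => hg j.succ) (h' V hV e he _ _ fun j => hg j.succ) (η 0) (g 0) (hg 0)
    · apply Finset.measurable_prod
      intro j _
      have h2 : Measurable fun x : E n => (SV V e x, (⟪η j.succ, x⟫ : ℝ)) := hS.prodMk (in_meas _)
      have h3 := (hg j.succ).1.comp h2
      exact h3
    · intro x
      rw [norm_prod]
      exact Finset.prod_le_one (fun _ _ => norm_nonneg _) fun j _ => (hg j.succ).2.1 _ _

/-- the case of no factors -/
theorem base_bd (q : ℝ) (hq : 1 ≤ q) (h : RTC n q (RCl n r)) :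
    ∃ B : ℝ, 0 ≤ B ∧ ∀ (V : Fin r → Submodule ℝ (E n)), Orth V →
      ∀ e : Fin r → E n, Un V e → MulS (SV V e) q (fun _ => 1) (ENNReal.ofReal B) := by
  obtain ⟨C, hC, hT⟩ := h
  refine ⟨C ^ (1 / q), by positivity, ?_⟩
  intro V hV e he H hH hH1
  have hS : Measurable (SV V e) := (SV_cont V e).measurable
  simp only [mul_one]
  have h3 := hT (fun x => H (SV V e x)) (hH.comp hS) (fun x => hH1 _)
    ⟨V, hV, fun x y hx hy => by
      simp only
      rw [SV_rad V e x y hx hy]⟩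
  have e1 : LL q (fun x : E n => H (SV V e x)) = (∫⁻ z, ‖T (fun z : E n => H (SV V e z)) z‖ₑ ^ q) ^ (1 / q) := by
    unfold LL
    rfl
  rw [e1, ← ENNReal.ofReal_rpow_of_nonneg hC.le (by positivity)]
  exact ENNReal.rpow_le_rpow h3 (by positivity)

/-- one density -/
theorem dens_bd (N : ℕ) (q : ℝ) (hq : 1 ≤ q) (B : ℝ)
    (h : ∀ (V : Fin r → Submodule ℝ (E n)), Orth V →
      ∀ e : Fin r → E n, Un V e → ∀ (η : Fin N → E n) (g : Fin N → E n → ℝ → ℂ),
      (∀ j, Fac (g j)) →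
      MulS (SV V e) q (fun x => ∏ j, g j (SV V e x) ⟪η j, x⟫) (ENNReal.ofReal B))
    (V : Fin r → Submodule ℝ (E n)) (hV : Orth V) (η : Fin N → E n) (g : Fin N → E n → ℝ → ℂ)
    (hg : ∀ j, Fac (g j)) (hgr : ∀ j t, Rad V fun x => g j x t) (F : E n → ℂ) (hF : Measurable F)
    (hFr : Rad V F) (M : ℝ) (hM : ∀ x, ‖F x‖ ≤ M) :
    LL q (fun x => F x * ∏ j, g j x ⟪η j, x⟫) ≤ ENNReal.ofReal (B * M) := by
  obtain ⟨e, he⟩ := exists_un V hV
  have hS : Measurable (SV V e) := (SV_cont V e).measurable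
  have hM0 : 0 ≤ M := (norm_nonneg _).trans (hM 0)
  set F' : E n → ℂ := fun y => ((M⁻¹ : ℝ) : ℂ) * F y with hF'
  have hF'm : Measurable F' := hF.const_mul _
  have hF'1 : ∀ y, ‖F' y‖ ≤ 1 := by
    intro y
    rw [hF']
    simp only [norm_mul, Complex.norm_real, Real.norm_of_nonneg (inv_nonneg.2 hM0)]
    rcases hM0.eq_or_lt with h0 | h0
    · rw [← h0]; simp
    · rw [inv_mul_le_iff₀ h0, mul_one]
      exact hM _
  have hFF' : ∀ y, F y = (M : ℂ) * F' y := by
    intro y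
    rw [hF']
    rcases hM0.eq_or_lt with h0 | h0
    · have h1 := hM y
      rw [← h0] at h1
      have h2 : F y = 0 := norm_le_zero_iff.1 h1
      simp [h2]
    · simp only
      rw [← mul_assoc, ← Complex.ofReal_mul, mul_inv_cancel₀ h0.ne', Complex.ofReal_one, one_mul]
  have hF'r : Rad V F' := by
    intro x y hx hy
    rw [hF']
    simp only
    rw [hFr x y hx hy]
  have e1 : (fun x => F x * ∏ j, g j x ⟪η j, x⟫) =
      fun x => (M : ℂ) * (F' (SV V e x) * ∏ j, g j (SV V e x) ⟪η j, x⟫) := by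
    ext x
    rw [hFF' x, rad_SV V hV e he F' hF'r x]
    have h2 : ∀ j, g j x ⟪η j, x⟫ = g j (SV V e x) ⟪η j, x⟫ := fun j =>
      rad_SV V hV e he (fun y => g j y ⟪η j, x⟫) (hgr j _) x
    simp only [h2]
    ring
  have hmeas : Measurable fun x => F' (SV V e x) * ∏ j, g j (SV V e x) ⟪η j, x⟫ := by
    refine (hF'm.comp hS).mul (Finset.measurable_prod _ fun j _ => ?_)
    have h2 : Measurable fun x : E n => (SV V e x, (⟪η j, x⟫ : ℝ)) := hS.prodMk (in_meas _)
    have h3 := (hg j).1.comp h2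
    exact h3
  rw [e1, LL_smul q hq (M : ℂ) _ hmeas]
  refine (mul_le_mul' le_rfl (h V hV e he η g hg F' hF'm hF'1)).trans (le_of_eq ?_)
  rw [← ofReal_norm, Complex.norm_real, Real.norm_of_nonneg hM0, ← ENNReal.ofReal_mul hM0, mul_comm]

end Pool.Agent.Y295.BV
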