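import Mathlib
import Pool.Agent.Y295.BV.C
set_option autoImplicit false
set_option linter.unusedSectionVars false

/-! Superpositions. -/

namespace Pool.Agent.Y295.BV

open MeasureTheory Set Metric Complex
open Pool.Agent.H438R2.PD (T_meas' T_comp)
open Pool.Agent.H789R2.FR (E sg T sg_finite)
open Pool.Agent.Y295.SP (LL LL_pow)
open Pool.Agent.Y61.MB (sigma ft ft_int_le ft_mod Stein RTC RCl all_cases)
open Pool.Agent.TH335.RF (mink)
open scoped ENNReal RealInnerProductSpace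

/-- one term of the superposition -/
theorem one_term' {n : ℕ} (q : ℝ) (hq : 0 < q) (K : ℝ) (η : E n) (F : E n → ℂ)
    (hFm : Measurable F) (hF : LL q F ≤ ENNReal.ofReal K) :
    Measurable (ft fun x : sphere (0 : E n) 1 => Complex.exp ((⟪η, (x : E n)⟫ : ℝ) * I) *
      F (x : E n)) ∧
    (∫⁻ ξ, ‖ft (fun x : sphere (0 : E n) 1 =>
      Complex.exp ((⟪η, (x : E n)⟫ : ℝ) * I) * F (x : E n)) ξ‖ₑ ^ q) ^ (1 / q) ≤
      ENNReal.ofReal K := by
  set g0 : sphere (0 : E n) 1 → ℂ := fun x => F (x : E n) with hg0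
  obtain ⟨hm1, hint⟩ := ft_int_le q g0 F hFm (Filter.Eventually.of_forall fun x => rfl)
  have hfun : ft (fun x : sphere (0 : E n) 1 =>
      Complex.exp ((⟪η, (x : E n)⟫ : ℝ) * I) * F (x : E n)) =
      fun ξ => ft g0 (ξ - (2 * Real.pi)⁻¹ • η) := by
    funext ξ
    rw [← ft_mod]
  have hsub : Measurable fun ξ : E n => ξ - (2 * Real.pi)⁻¹ • η := measurable_id.sub_const _
  rw [hfun]
  refine ⟨hm1.comp hsub, ?_⟩
  have h1 : ∫⁻ ξ, ‖ft g0 (ξ - (2 * Real.pi)⁻¹ • η)‖ₑ ^ q ≤ ENNReal.ofReal K ^ q := by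
    calc ∫⁻ ξ, ‖ft g0 (ξ - (2 * Real.pi)⁻¹ • η)‖ₑ ^ q = ∫⁻ ξ, ‖ft g0 ξ‖ₑ ^ q :=
          lintegral_sub_right_eq_self (fun ξ => ‖ft g0 ξ‖ₑ ^ q) ((2 * Real.pi)⁻¹ • η)
      _ ≤ ∫⁻ z, ‖T F z‖ₑ ^ q := hint
      _ ≤ ENNReal.ofReal K ^ q := by
          rw [← LL_pow q hq]
          exact ENNReal.rpow_le_rpow hF hq.le
  refine (ENNReal.rpow_le_rpow h1 (by positivity)).trans (le_of_eq ?_)
  rw [← ENNReal.rpow_mul, mul_one_div_cancel hq.ne', ENNReal.rpow_one]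

/-- the superposition -/
theorem super' {n : ℕ} (q : ℝ) (hq : 1 ≤ q) (C : ℝ) (hC : 0 < C) (M : ℕ → ℝ) (hM : Summable M)
    (η : ℕ → E n) (F : ℕ → E n → ℂ) (hFm : ∀ j, Measurable (F j)) (hF : ∀ j x, ‖F j x‖ ≤ M j)
    (hT : ∀ j, LL q (F j) ≤ ENNReal.ofReal (C * M j))
    (g : sphere (0 : E n) 1 → ℂ) (hg : ∀ᵐ x ∂(sigma n),
        g x = ∑' j, Complex.exp ((⟪η j, (x : E n)⟫ : ℝ) * I) * F j (x : E n)) :
      MemLp (ft g) (ENNReal.ofReal q) ∧
      eLpNorm (ft g) (ENNReal.ofReal q) ≤ ENNReal.ofReal (C * ∑' j, M j) := by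
  have hq0 : 0 < q := by linarith
  have hM0 : ∀ j, 0 ≤ M j := fun j => (norm_nonneg _).trans (hF j 0)
  set gj : ℕ → sphere (0 : E n) 1 → ℂ := fun j x =>
    Complex.exp ((⟪η j, (x : E n)⟫ : ℝ) * I) * F j (x : E n) with hgj
  have hone := fun j => one_term' q hq0 (C * M j) (η j) (F j) (hFm j) (hT j)
  have hfin : IsFiniteMeasure (sigma n) := by unfold sigma; infer_instance
  have hgjm : ∀ j, Measurable (gj j) := by
    intro j
    have h1 : Measurable fun x : E n => Complex.exp ((⟪η j, x⟫ : ℝ) * I) * F j x := by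
      refine Measurable.mul ?_ (hFm j)
      have h2 : Measurable fun x : E n => (⟪η j, x⟫ : ℝ) := by fun_prop
      exact Complex.measurable_exp.comp ((Complex.measurable_ofReal.comp h2).mul_const I)
    exact h1.comp measurable_subtype_coe
  have hgjb : ∀ j x, ‖gj j x‖ ≤ M j := by
    intro j x
    rw [hgj]
    simp only [norm_mul, Complex.norm_exp_ofReal_mul_I, one_mul]
    exact hF j _
  have hsum : ∀ ξ, ft g ξ = ∑' j, ft (gj j) ξ := by
    intro ξ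
    unfold ft
    have hen : ∀ (j : ℕ) (x : sphere (0 : E n) 1),
        ‖Complex.exp (-(2 * Real.pi * ⟪(x : E n), ξ⟫ : ℝ) * I) * gj j x‖ₑ ≤
          ENNReal.ofReal (M j) := by
      intro j x
      rw [← ofReal_norm]
      apply ENNReal.ofReal_le_ofReal
      have h3 : -(((2 * Real.pi * ⟪(x : E n), ξ⟫ : ℝ)) : ℂ) * I =
          ((-(2 * Real.pi * ⟪(x : E n), ξ⟫) : ℝ) : ℂ) * I := by push_cast; ring
      rw [norm_mul, h3, Complex.norm_exp_ofReal_mul_I, one_mul]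
      exact hgjb j x
    have hexm : Measurable fun x : sphere (0 : E n) 1 =>
        Complex.exp (-(2 * Real.pi * ⟪(x : E n), ξ⟫ : ℝ) * I) := by
      have h4 : Continuous fun x : sphere (0 : E n) 1 =>
        Complex.exp (-(2 * Real.pi * ⟪(x : E n), ξ⟫ : ℝ) * I) := by fun_prop
      exact h4.measurable
    rw [← integral_tsum]
    · refine integral_congr_ae ?_
      filter_upwards [hg] with x hx
      rw [hx, ← tsum_mul_left]
    · exact fun j => (hexm.mul (hgjm j)).aestronglyMeasurable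
    · have h5 : ∑' j, ∫⁻ x, ‖Complex.exp (-(2 * Real.pi * ⟪(x : E n), ξ⟫ : ℝ) * I) *
          gj j x‖ₑ ∂(sigma n) ≤ ∑' j, ENNReal.ofReal (M j) * sigma n univ := by
        apply ENNReal.tsum_le_tsum
        intro j
        calc _ ≤ ∫⁻ _x, ENNReal.ofReal (M j) ∂(sigma n) := lintegral_mono (hen j)
          _ = _ := by rw [lintegral_const]
      refine (h5.trans_lt ?_).ne
      rw [ENNReal.tsum_mul_right, ← ENNReal.ofReal_tsum_of_nonneg hM0 hM]
      exact ENNReal.mul_lt_top ENNReal.ofReal_lt_top (measure_lt_top _ _)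
  have hfun : ft g = fun ξ => ∑' j, ft (gj j) ξ := funext hsum
  have hmeas : Measurable (ft g) := by
    rw [hfun]
    exact Measurable.tsum fun j => (hone j).1
  have hle : ∫⁻ ξ, ‖ft g ξ‖ₑ ^ q ≤ (ENNReal.ofReal (C * ∑' j, M j)) ^ q := by
    calc ∫⁻ ξ, ‖ft g ξ‖ₑ ^ q ≤ ∫⁻ ξ, (∑' j, ‖ft (gj j) ξ‖ₑ) ^ q := by
          apply lintegral_mono
          intro ξ
          simp only
          rw [hsum]
          exact ENNReal.rpow_le_rpow enorm_tsum_le_tsum_enorm hq0.le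
      _ ≤ (∑' j, (∫⁻ ξ, ‖ft (gj j) ξ‖ₑ ^ q) ^ (1 / q)) ^ q :=
          mink volume q hq (fun j ξ => ‖ft (gj j) ξ‖ₑ) fun j => (hone j).1.enorm
      _ ≤ (∑' j, ENNReal.ofReal (C * M j)) ^ q :=
          ENNReal.rpow_le_rpow (ENNReal.tsum_le_tsum fun j => (hone j).2) hq0.le
      _ = _ := by
          rw [← ENNReal.ofReal_tsum_of_nonneg (fun j => mul_nonneg (by positivity) (hM0 j))
            (hM.mul_left _), tsum_mul_left]
  have hnorm : eLpNorm (ft g) (ENNReal.ofReal q) ≤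
      ENNReal.ofReal (C * ∑' j, M j) := by
    rw [eLpNorm_eq_lintegral_rpow_enorm_toReal (by simpa using hq0) ENNReal.ofReal_ne_top,
      ENNReal.toReal_ofReal hq0.le]
    refine (ENNReal.rpow_le_rpow hle (by positivity)).trans (le_of_eq ?_)
    rw [← ENNReal.rpow_mul, mul_one_div_cancel hq0.ne', ENNReal.rpow_one]
  exact ⟨⟨hmeas.aestronglyMeasurable, hnorm.trans_lt ENNReal.ofReal_lt_top⟩, hnorm⟩

/-- the admissible exponents -/
def Adm (n r : ℕ) (q : ℝ) : Prop :=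
  (r = 2 ∧ 2 * (n : ℝ) / (n - 1) < q) ∨
      2 + 4 / (2 * (n : ℝ) - r - 1) < q ∨
      (∃ P : ℝ, 2 < P ∧ Stein r P ∧ 1 < (q - 2) * (((n : ℝ) - r) / 2 + 1 / (P - 2))) ∨
      ((∀ P : ℝ, 2 * (r : ℝ) / (r - 1) < P → Stein r P) ∧ 2 * (n : ℝ) / (n - 1) < q)

theorem adm_one (n r : ℕ) (hr : 2 ≤ r) (hn : r < n) (q : ℝ) (h : Adm n r q) : 1 ≤ q := by
  have hr' : (2 : ℝ) ≤ r := by exact_mod_cast hr
  have hn' : (r : ℝ) + 1 ≤ n := by exact_mod_cast hn
  have h4 : 0 ≤ 2 * (n : ℝ) / (n - 1) - 2 := by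
    rw [sub_nonneg, le_div_iff₀ (by linarith)]
    linarith
  rcases h with ⟨-, hq⟩ | hq | ⟨P, hP, -, h⟩ | ⟨-, hq⟩
  · linarith
  · have : 0 < 4 / (2 * (n : ℝ) - r - 1) := div_pos (by norm_num) (by linarith)
    linarith
  · by_contra hc
    have h1 : 0 < 1 / (P - 2) := one_div_pos.2 (by linarith)
    have h2 : (q - 2) * (((n : ℝ) - r) / 2 + 1 / (P - 2)) ≤ 0 :=
      mul_nonpos_of_nonpos_of_nonneg (by linarith) (by
        have : 0 ≤ ((n : ℝ) - r) / 2 := by linarith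
        linarith)
    linarith
  · linarith

theorem adm_down (n r : ℕ) (hn : r < n) (q : ℝ) (h : Adm n r q) : ∃ q', q' < q ∧ Adm n r q' := by
  have hn' : (r : ℝ) + 1 ≤ n := by exact_mod_cast hn
  rcases h with ⟨h1, hq⟩ | hq | ⟨P, hP, hS, h⟩ | ⟨hS, hq⟩
  · obtain ⟨q', h2, h3⟩ := exists_between hq
    exact ⟨q', h3, Or.inl ⟨h1, h2⟩⟩
  · obtain ⟨q', h2, h3⟩ := exists_between hq
    exact ⟨q', h3, Or.inr (Or.inl h2)⟩
  · set D : ℝ := ((n : ℝ) - r) / 2 + 1 / (P - 2) with hD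
    have hD0 : 0 < D := by
      have h1 : 0 < 1 / (P - 2) := one_div_pos.2 (by linarith)
      have h2 : 0 < ((n : ℝ) - r) / 2 := by linarith
      linarith
    have h1 : 2 + 1 / D < q := by
      have : 1 / D < q - 2 := by
        rw [div_lt_iff₀ hD0]
        exact h
      linarith
    obtain ⟨q', h2, h3⟩ := exists_between h1
    refine ⟨q', h3, Or.inr (Or.inr (Or.inl ⟨P, hP, hS, ?_⟩))⟩
    rw [← div_lt_iff₀ hD0]
    linarith
  · obtain ⟨q', h2, h3⟩ := exists_between hq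
    exact ⟨q', h3, Or.inr (Or.inr (Or.inr ⟨hS, h2⟩))⟩

/-- the estimate -/
theorem main (n r N : ℕ) (hr : 2 ≤ r) (hn : r < n) (q : ℝ) (h : Adm n r q) :
    ∃ B : ℝ, 0 ≤ B ∧ ∀ (V : Fin r → Submodule ℝ (E n)), Pool.Agent.Y61.MB.Orth V →
      ∀ e : Fin r → E n, Un V e → ∀ (η : Fin N → E n) (g : Fin N → E n → ℝ → ℂ),
      (∀ j, Fac (g j)) →
      MulS (SV V e) q (fun x => ∏ j, g j (SV V e x) ⟪η j, x⟫) (ENNReal.ofReal B) :=
  prod_bd n r hr (Adm n r) (adm_one n r hr hn) (adm_down n r hn)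
    (fun q hq => base_bd q (adm_one n r hr hn q hq) (all_cases n r hr hn q hq)) N q h

end Pool.Agent.Y295.BV
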