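import Mathlib
import Pool.Agent.Y295.BV.D
set_option autoImplicit false
set_option linter.unusedSectionVars false

/-! Fourier decomposition of a smooth function with uniform bounds. -/

namespace Pool.Agent.Y295.BV

open MeasureTheory Set Complex Filter Topology
open scoped ENNReal NNReal RealInnerProductSpace FourierTransform
open Pool.Agent.H789R2.FR (E sg T sg_finite sg_ae sg_inv)

lemma cutoff (n : ℕ) (R : ℝ) (hR : 0 < R) : ∃ ψ : E n → ℂ, ContDiff ℝ (⊤ : ℕ∞) ψ ∧ HasCompactSupport ψ ∧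
    (∀ w, ‖w‖ ≤ R → ψ w = 1) ∧ ∀ w, ‖ψ w‖ ≤ 1 := by
  let f : ContDiffBump (0 : E n) := ⟨R, R + 1, hR, by linarith⟩
  refine ⟨fun w => (f w : ℂ), ?_, ?_, ?_, ?_⟩
  · exact Complex.ofRealCLM.contDiff.comp f.contDiff
  · exact f.hasCompactSupport.comp_left Complex.ofReal_zero
  · intro w hw
    have h1 : f w = 1 := f.one_of_mem_closedBall (by simpa using hw)
    simp only
    rw [h1, Complex.ofReal_one]
  · intro w
    simp only
    rw [Complex.norm_real, Real.norm_of_nonneg f.nonneg]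
    exact f.le_one

theorem four (n K : ℕ) (ψ : E n → ℂ) (hψ : ContDiff ℝ (⊤ : ℕ∞) ψ) (hψc : HasCompactSupport ψ) :
    ∃ c : ℝ, 0 < c ∧ ∀ f : E n → ℂ, ContDiff ℝ K f → (∀ k ≤ K, ∀ w, ‖iteratedFDeriv ℝ k f w‖ ≤ 1) →
      Continuous (fun w => ψ w * f w) ∧ Integrable (fun w => ψ w * f w) ∧
      ∀ ξ, ‖𝓕 (fun w => ψ w * f w) ξ‖ ≤ c * (1 + ‖ξ‖) ^ (-(K : ℝ)) := by
  set I : ℕ → ℝ := fun i => ∫ w, ‖iteratedFDeriv ℝ i ψ w‖ with hI
  have hI0 : ∀ i, 0 ≤ I i := fun i => integral_nonneg fun w => norm_nonneg _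
  have hψi : ∀ i : ℕ, Integrable fun w => ‖iteratedFDeriv ℝ i ψ w‖ := by
    intro i
    refine Continuous.integrable_of_hasCompactSupport ?_ ?_
    · exact (hψ.continuous_iteratedFDeriv (m := i) (by exact_mod_cast le_top)).norm
    · exact (hψc.iteratedFDeriv i).norm
  set Dj : ℕ → ℝ := fun j => ∑ i ∈ Finset.range (j + 1), (j.choose i : ℝ) * I i with hDj
  have hDj0 : ∀ j, 0 ≤ Dj j := fun j => Finset.sum_nonneg fun i _ => mul_nonneg (by positivity) (hI0 i)
  set D : ℝ := 1 + ∑ j ∈ Finset.range (K + 1), Dj j with hD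
  have hDs : 0 ≤ ∑ j ∈ Finset.range (K + 1), Dj j := Finset.sum_nonneg fun j _ => hDj0 j
  have hD0 : 0 < D := by rw [hD]; linarith
  refine ⟨2 ^ K * (D + 2 ^ K * D), by positivity, ?_⟩
  intro f hf hfb
  have hg : ContDiff ℝ K (fun w => ψ w * f w) :=
    (hψ.of_le (by exact_mod_cast le_top)).mul hf
  have hgc : HasCompactSupport (fun w => ψ w * f w) := hψc.mul_right
  have hgi : ∀ j : ℕ, j ≤ K → Integrable fun w => ‖iteratedFDeriv ℝ j (fun w => ψ w * f w) w‖ := by
    intro j hj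
    refine Continuous.integrable_of_hasCompactSupport ?_ ?_
    · exact (hg.continuous_iteratedFDeriv (m := j) (by exact_mod_cast hj)).norm
    · exact (hgc.iteratedFDeriv j).norm
  have hgb : ∀ j : ℕ, j ≤ K → ∫ w, ‖iteratedFDeriv ℝ j (fun w => ψ w * f w) w‖ ≤ Dj j := by
    intro j hj
    have h1 : ∀ w, ‖iteratedFDeriv ℝ j (fun w => ψ w * f w) w‖ ≤
        ∑ i ∈ Finset.range (j + 1), (j.choose i : ℝ) * ‖iteratedFDeriv ℝ i ψ w‖ := by
      intro w
      refine (norm_iteratedFDeriv_mul_le (N := K) (hψ.of_le (by exact_mod_cast le_top)) hf w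
        (by exact_mod_cast hj)).trans (Finset.sum_le_sum fun i hi => ?_)
      have h2 := hfb (j - i) (by omega) w
      have h3 : 0 ≤ (j.choose i : ℝ) * ‖iteratedFDeriv ℝ i ψ w‖ := by positivity
      calc _ ≤ (j.choose i : ℝ) * ‖iteratedFDeriv ℝ i ψ w‖ * 1 := by gcongr
        _ = _ := mul_one _
    have hi1 : Integrable fun w => ∑ i ∈ Finset.range (j + 1), (j.choose i : ℝ) *
        ‖iteratedFDeriv ℝ i ψ w‖ := integrable_finsetSum _ fun i _ => (hψi i).const_mul _
    refine (integral_mono (hgi j hj) hi1 h1).trans (le_of_eq ?_)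
    rw [integral_finsetSum _ fun i _ => (hψi i).const_mul _]
    simp only [integral_const_mul]
    rfl
  have hint : Integrable (fun w => ψ w * f w) := hg.continuous.integrable_of_hasCompactSupport hgc
  refine ⟨hg.continuous, hint, ?_⟩
  intro ξ
  have hkey : ∀ j : ℕ, j ≤ K → ‖ξ‖ ^ j * ‖𝓕 (fun w => ψ w * f w) ξ‖ ≤ 2 ^ j * D := by
    intro j hj
    have h1 := Real.pow_mul_norm_iteratedFDeriv_fourier_le (K := 0) (N := (K : ℕ∞))
      (f := fun w => ψ w * f w) (by exact_mod_cast hg) (fun k i hk hi => by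
        have hk0 : k = 0 := Nat.le_zero.1 (by exact_mod_cast hk)
        subst hk0
        simp only [pow_zero, one_mul]
        exact hgi i (by exact_mod_cast hi)) (k := 0) (n := j) (by simp) (by exact_mod_cast hj) ξ
    rw [norm_iteratedFDeriv_zero] at h1
    refine h1.trans ?_
    have h2 : ∑ p ∈ Finset.range (0 + 1) ×ˢ Finset.range (j + 1),
        ∫ v, ‖v‖ ^ p.1 * ‖iteratedFDeriv ℝ p.2 (fun w => ψ w * f w) v‖ =
        ∑ i ∈ Finset.range (j + 1), ∫ v, ‖iteratedFDeriv ℝ i (fun w => ψ w * f w) v‖ := by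
      rw [Finset.sum_product]
      simp
    rw [h2]
    have h3 : ∑ i ∈ Finset.range (j + 1), ∫ v, ‖iteratedFDeriv ℝ i (fun w => ψ w * f w) v‖ ≤ D := by
      calc _ ≤ ∑ i ∈ Finset.range (j + 1), Dj i :=
            Finset.sum_le_sum fun i hi => hgb i (by
              have := Finset.mem_range.1 hi
              omega)
        _ ≤ ∑ i ∈ Finset.range (K + 1), Dj i :=
            Finset.sum_le_sum_of_subset_of_nonneg (by
              intro i hi
              rw [Finset.mem_range] at hi ⊢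
              omega) fun i _ _ => hDj0 i
        _ ≤ D := by rw [hD]; linarith
    have h4 : (2 * Real.pi) ^ 0 * (2 * ((0 : ℕ) : ℝ) + 2) ^ j = 2 ^ j := by simp
    rw [h4]
    gcongr
  have hk0 := hkey 0 (Nat.zero_le _)
  have hkK := hkey K le_rfl
  rw [pow_zero, one_mul, pow_zero, one_mul] at hk0
  set x : ℝ := ‖𝓕 (fun w => ψ w * f w) ξ‖ with hx
  have hx0 : 0 ≤ x := norm_nonneg _
  have h5 : (1 + ‖ξ‖) ^ K ≤ 2 ^ K * (1 + ‖ξ‖ ^ K) := by
    rcases le_total ‖ξ‖ 1 with h | h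
    · calc (1 + ‖ξ‖) ^ K ≤ 2 ^ K := by
            apply pow_le_pow_left₀ (by positivity)
            linarith
        _ ≤ 2 ^ K * (1 + ‖ξ‖ ^ K) := by
            have : 0 ≤ ‖ξ‖ ^ K := by positivity
            have h6 : (0 : ℝ) < 2 ^ K := by positivity
            nlinarith
    · calc (1 + ‖ξ‖) ^ K ≤ (2 * ‖ξ‖) ^ K := by
            apply pow_le_pow_left₀ (by positivity)
            linarith
        _ = 2 ^ K * ‖ξ‖ ^ K := mul_pow _ _ _
        _ ≤ _ := by
            have h6 : (0 : ℝ) < 2 ^ K := by positivity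
            nlinarith
  have h7 : (1 + ‖ξ‖) ^ K * x ≤ 2 ^ K * (D + 2 ^ K * D) := by
    calc (1 + ‖ξ‖) ^ K * x ≤ 2 ^ K * (1 + ‖ξ‖ ^ K) * x := by gcongr
      _ = 2 ^ K * (x + ‖ξ‖ ^ K * x) := by ring
      _ ≤ _ := by gcongr
  have h8 : 0 < 1 + ‖ξ‖ := by positivity
  rw [Real.rpow_neg h8.le, Real.rpow_natCast, ← div_eq_mul_inv, le_div_iff₀ (by positivity), mul_comm]
  exact h7

/-- inversion -/
theorem four_inv (n K : ℕ) (hK : n < K) (ψ f : E n → ℂ) (c : ℝ)
    (h1 : Continuous (fun w => ψ w * f w)) (h2 : Integrable (fun w => ψ w * f w))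
    (h3 : ∀ ξ, ‖𝓕 (fun w => ψ w * f w) ξ‖ ≤ c * (1 + ‖ξ‖) ^ (-(K : ℝ))) (w : E n) :
    ψ w * f w = ∫ ξ, Pool.Agent.TH277.HT.ch ⟪ξ, w⟫ * 𝓕 (fun w => ψ w * f w) ξ := by
  have hI : Integrable (𝓕 (fun w => ψ w * f w)) := by
    have h4 : Integrable fun ξ : E n => c * (1 + ‖ξ‖) ^ (-(K : ℝ)) := by
      apply Integrable.const_mul
      apply integrable_one_add_norm
      rw [finrank_euclideanSpace_fin]
      exact_mod_cast hK
    refine h4.mono' ?_ (ae_of_all _ h3)
    have h5 : Continuous (𝓕 (fun w => ψ w * f w)) :=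
      VectorFourier.fourierIntegral_continuous Real.continuous_fourierChar (by exact continuous_inner) h2
    exact h5.aestronglyMeasurable
  have h6 := h1.fourierInv_fourier_eq h2 hI
  have h7 := congrFun h6 w
  rw [Real.fourierInv_eq'] at h7
  rw [← h7]
  apply integral_congr_ae
  refine ae_of_all _ fun ξ => ?_
  simp only [smul_eq_mul]
  congr 1
  unfold Pool.Agent.TH277.HT.ch
  congr 1
  push_cast
  ring

end Pool.Agent.Y295.BV
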