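import Mathlib
import Pool.Agent.Y295.BV.F
set_option autoImplicit false
set_option linter.unusedSectionVars false

/-! Factors which are smooth along the orbits. -/

namespace Pool.Agent.Y295.BV

open MeasureTheory Set Complex Filter Topology
open scoped ENNReal NNReal RealInnerProductSpace FourierTransform
open Pool.Agent.H789R2.FR (E sg T sg_finite sg_ae sg_inv)
open Pool.Agent.H438R2.PD (T_meas' T_le)
open Pool.Agent.Y295.SP (LL LL_smul LL_mix T_joint T_def T_smul ex ex_norm ex_cont ex_cont')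
open Pool.Agent.Y61.MB (Orth Radial)
open Pool.Agent.TH277.HT (ch ch_norm ch_cont ch_add)

variable {n r : ℕ}

lemma ch_sum' {ι : Type*} (s : Finset ι) (f : ι → ℝ) : ch (∑ j ∈ s, f j) = ∏ j ∈ s, ch (f j) := by
  classical
  induction s using Finset.induction with
  | empty => simp [ch]
  | insert a s ha ih => rw [Finset.sum_insert ha, Finset.prod_insert ha, ch_add, ih]

/-- the directions of the projections -/
noncomputable def om (V : Fin r → Submodule ℝ (E n)) (x : E n) : E n :=
  ∑ i, ‖(V i).starProjection x‖⁻¹ • (V i).starProjection x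

lemma om_norm (V : Fin r → Submodule ℝ (E n)) (x : E n) : ‖om V x‖ ≤ r := by
  unfold om
  refine (norm_sum_le _ _).trans ?_
  calc ∑ i, ‖‖(V i).starProjection x‖⁻¹ • (V i).starProjection x‖ ≤ ∑ _i : Fin r, (1 : ℝ) := by
        refine Finset.sum_le_sum fun i _ => ?_
        rw [norm_smul, norm_inv, norm_norm]
        exact inv_mul_le_one
    _ = r := by simp

lemma om_meas (V : Fin r → Submodule ℝ (E n)) : Measurable (om V) := by
  unfold om
  refine Finset.measurable_sum _ fun i _ => ?_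
  have h1 : Measurable fun x : E n => (V i).starProjection x := (V i).starProjection.continuous.measurable
  exact h1.norm.inv.smul h1

lemma om_inner (V : Fin r → Submodule ℝ (E n)) (ξ x : E n) :
    (⟪ξ, om V x⟫ : ℝ) = ∑ i, ‖(V i).starProjection x‖⁻¹ * ⟪(V i).starProjection ξ, x⟫ := by
  unfold om
  rw [inner_sum]
  refine Finset.sum_congr rfl fun i _ => ?_
  rw [real_inner_smul_right, Submodule.inner_starProjection_left_eq_right]

/-- truncation -/
noncomputable def cl (L t : ℝ) : ℝ := max (-L) (min L t)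

lemma cl_eq {L t : ℝ} (h : |t| ≤ L) : cl L t = t := by
  unfold cl
  rw [min_eq_right (abs_le.1 h).2, max_eq_right (abs_le.1 h).1]

lemma cl_mono (L : ℝ) {s t : ℝ} (h : s ≤ t) : cl L s ≤ cl L t :=
  max_le_max le_rfl (min_le_min le_rfl h)

lemma cl_lb (L t : ℝ) : -L ≤ cl L t := le_max_left _ _

lemma cl_ub {L : ℝ} (hL : 0 ≤ L) (t : ℝ) : cl L t ≤ L := max_le (by linarith) (min_le_left _ _)

lemma cl_cont (L : ℝ) : Continuous (cl L) := by
  unfold cl
  fun_prop

lemma ch_lip (a b : ℝ) : ‖ch a - ch b‖ ≤ 2 * Real.pi * |a - b| := by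
  have h1 : ch a - ch b = (ch (a - b) - 1) * ch b := by
    rw [sub_mul, ← ch_add, sub_add_cancel, one_mul]
  rw [h1, norm_mul, ch_norm, mul_one]
  have h2 : ch (a - b) = Complex.exp (I * ((2 * Real.pi * (a - b) : ℝ) : ℂ)) := by
    unfold ch
    congr 1
    push_cast
    ring
  rw [h2]
  refine (Real.norm_exp_I_mul_ofReal_sub_one_le).trans (le_of_eq ?_)
  rw [Real.norm_eq_abs, abs_mul, abs_of_pos (by positivity)]

/-- the phases as factors of bounded variation -/
noncomputable def ph (V : Fin r → Submodule ℝ (E n)) (ξ : E n) (i : Fin r) (y : E n) (t : ℝ) : ℂ :=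
  (((1 + 4 * Real.pi * ‖(V i).starProjection ξ‖)⁻¹ : ℝ) : ℂ) *
    ch (cl ‖(V i).starProjection ξ‖ (‖(V i).starProjection y‖⁻¹ * t))

lemma ph_fac (V : Fin r → Submodule ℝ (E n)) (ξ : E n) (i : Fin r) : Fac (ph V ξ i) := by
  set L : ℝ := ‖(V i).starProjection ξ‖ with hL
  have hL0 : 0 ≤ L := norm_nonneg _
  set Λ : ℝ := 1 + 4 * Real.pi * L with hΛ
  have hΛ1 : 1 ≤ Λ := by
    have : 0 ≤ 4 * Real.pi * L := by positivity
    linarith
  have hΛ0 : 0 < Λ := by linarith
  have hi1 : Λ⁻¹ ≤ 1 := inv_le_one_of_one_le₀ hΛ1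
  have hu : Measurable fun p : E n × ℝ => cl L (‖(V i).starProjection p.1‖⁻¹ * p.2) := by
    apply (cl_cont L).measurable.comp
    have h1 : Measurable fun x : E n => (V i).starProjection x := (V i).starProjection.continuous.measurable
    exact ((h1.comp measurable_fst).norm.inv).mul measurable_snd
  refine ⟨?_, ?_, fun y t => 2 * Real.pi * (cl L (‖(V i).starProjection y‖⁻¹ * t) + L) * Λ⁻¹,
    ?_, ?_, ?_, ?_⟩
  · have h1 : Measurable fun p : E n × ℝ => ((Λ⁻¹ : ℝ) : ℂ) *
        ch (cl L (‖(V i).starProjection p.1‖⁻¹ * p.2)) := (ch_cont.measurable.comp hu).const_mul _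
    exact h1
  · intro y s
    unfold ph
    rw [norm_mul, ch_norm, mul_one, Complex.norm_real, Real.norm_of_nonneg (by positivity)]
    exact hi1
  · have h1 : Measurable fun p : E n × ℝ => 2 * Real.pi * (cl L (‖(V i).starProjection p.1‖⁻¹ * p.2) + L) *
        Λ⁻¹ := ((hu.add_const _).const_mul _).mul_const _
    exact h1
  · intro y s
    have := cl_lb L (‖(V i).starProjection y‖⁻¹ * s)
    have h2 : 0 ≤ cl L (‖(V i).starProjection y‖⁻¹ * s) + L := by linarith
    positivity
  · intro y s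
    have h1 := cl_ub hL0 (‖(V i).starProjection y‖⁻¹ * s)
    simp only
    rw [← div_eq_mul_inv, div_le_one hΛ0]
    have h2 : 2 * Real.pi * (cl L (‖(V i).starProjection y‖⁻¹ * s) + L) ≤ 2 * Real.pi * (L + L) := by
      gcongr
    rw [hΛ]
    linarith
  · intro y s t hst
    unfold ph
    rw [← mul_sub, norm_mul, Complex.norm_real, Real.norm_of_nonneg (by positivity)]
    have h1 := ch_lip (cl L (‖(V i).starProjection y‖⁻¹ * t)) (cl L (‖(V i).starProjection y‖⁻¹ * s))
    have h2 : cl L (‖(V i).starProjection y‖⁻¹ * s) ≤ cl L (‖(V i).starProjection y‖⁻¹ * t) := by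
      apply cl_mono
      gcongr
    rw [abs_of_nonneg (by linarith)] at h1
    calc Λ⁻¹ * ‖ch (cl L (‖(V i).starProjection y‖⁻¹ * t)) - ch (cl L (‖(V i).starProjection y‖⁻¹ * s))‖
        ≤ Λ⁻¹ * (2 * Real.pi * (cl L (‖(V i).starProjection y‖⁻¹ * t) -
          cl L (‖(V i).starProjection y‖⁻¹ * s))) := by gcongr
      _ = _ := by ring

lemma ph_eq (V : Fin r → Submodule ℝ (E n)) (hV : Orth V) (e : Fin r → E n) (he : Un V e) (ξ x : E n)
    (i : Fin r) : ch (‖(V i).starProjection x‖⁻¹ * ⟪(V i).starProjection ξ, x⟫) =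
      ((1 + 4 * Real.pi * ‖(V i).starProjection ξ‖ : ℝ) : ℂ) *
        ph V ξ i (SV V e x) ⟪(V i).starProjection ξ, x⟫ := by
  set L : ℝ := ‖(V i).starProjection ξ‖ with hL
  have hL0 : 0 ≤ L := norm_nonneg _
  have hΛ0 : 0 < 1 + 4 * Real.pi * L := by positivity
  unfold ph
  rw [norm_proj_SV V hV e he, cl_eq, ← mul_assoc, ← hL, ← Complex.ofReal_mul, mul_inv_cancel₀ hΛ0.ne',
    Complex.ofReal_one, one_mul]
  have h1 : (⟪(V i).starProjection ξ, x⟫ : ℝ) = ⟪(V i).starProjection ξ, (V i).starProjection x⟫ := by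
    rw [← Submodule.inner_starProjection_left_eq_right]
    congr 1
    exact (Submodule.starProjection_eq_self_iff.2 (Submodule.starProjection_apply_mem (V i) ξ)).symm
  have h2 := abs_real_inner_le_norm ((V i).starProjection ξ) ((V i).starProjection x)
  rw [abs_mul, abs_inv, abs_norm, h1]
  calc ‖(V i).starProjection x‖⁻¹ * |⟪(V i).starProjection ξ, (V i).starProjection x⟫|
      ≤ ‖(V i).starProjection x‖⁻¹ * (‖(V i).starProjection ξ‖ * ‖(V i).starProjection x‖) := by gcongr
    _ = L * (‖(V i).starProjection x‖⁻¹ * ‖(V i).starProjection x‖) := by rw [hL]; ring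
    _ ≤ L * 1 := by
        gcongr
        exact inv_mul_le_one
    _ = L := mul_one _

/-- the constants -/
noncomputable def Am (V : Fin r → Submodule ℝ (E n)) (ξ : E n) : ℝ :=
  ∏ i, (1 + 4 * Real.pi * ‖(V i).starProjection ξ‖)

lemma Am_nonneg (V : Fin r → Submodule ℝ (E n)) (ξ : E n) : 0 ≤ Am V ξ :=
  Finset.prod_nonneg fun i _ => by positivity

lemma Am_le (V : Fin r → Submodule ℝ (E n)) (ξ : E n) : Am V ξ ≤ (4 * Real.pi) ^ r * (1 + ‖ξ‖) ^ r := by
  unfold Am
  rw [← mul_pow]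
  calc ∏ i, (1 + 4 * Real.pi * ‖(V i).starProjection ξ‖) ≤ ∏ _i : Fin r, (4 * Real.pi * (1 + ‖ξ‖)) := by
        refine Finset.prod_le_prod (fun i _ => by positivity) fun i _ => ?_
        have h1 : ‖(V i).starProjection ξ‖ ≤ ‖ξ‖ := Submodule.norm_starProjection_apply_le (V i) ξ
        have h2 : 1 ≤ 4 * Real.pi := by linarith [Real.pi_gt_three]
        have h3 : 4 * Real.pi * ‖(V i).starProjection ξ‖ ≤ 4 * Real.pi * ‖ξ‖ := by gcongr
        linarith
    _ = _ := by simp

lemma ch_om (V : Fin r → Submodule ℝ (E n)) (hV : Orth V) (e : Fin r → E n) (he : Un V e) (ξ x : E n) :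
    ch ⟪ξ, om V x⟫ = (Am V ξ : ℂ) * ∏ i, ph V ξ i (SV V e x) ⟪(V i).starProjection ξ, x⟫ := by
  rw [om_inner, ch_sum']
  simp only [ph_eq V hV e he ξ x]
  rw [Finset.prod_mul_distrib]
  unfold Am
  push_cast
  rfl

end Pool.Agent.Y295.BV
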