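import Mathlib
import Pool.Agent.Y295.BV.G
set_option autoImplicit false
set_option linter.unusedSectionVars false

/-! Densities smooth along the orbits, times products of factors of bounded variation. -/

namespace Pool.Agent.Y295.BV

open MeasureTheory Set Complex Filter Topology
open scoped ENNReal NNReal RealInnerProductSpace FourierTransform
open Pool.Agent.H789R2.FR (E sg T sg_finite sg_ae sg_inv)
open Pool.Agent.H438R2.PD (T_meas' T_le)
open Pool.Agent.Y295.SP (LL LL_smul LL_mix T_joint T_def T_smul ex ex_norm ex_cont ex_cont')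
open Pool.Agent.Y61.MB (Orth Radial)
open Pool.Agent.TH277.HT (ch ch_norm ch_cont ch_add)

variable {n r : ℕ}

attribute [local irreducible] LL

/-- joint measurability of the Fourier transform with a parameter -/
lemma four_meas (ψ : E n → ℂ) (hψ : Measurable ψ) (Φ : E n → E n → ℂ) (hΦ : Measurable (Function.uncurry Φ)) :
    Measurable fun p : E n × E n => 𝓕 (fun w => ψ w * Φ p.1 w) p.2 := by
  have h1 : StronglyMeasurable fun p : (E n × E n) × E n =>
      Complex.exp ((((-2 * Real.pi * ⟪p.2, p.1.2⟫ : ℝ)) : ℂ) * I) * (ψ p.2 * Φ p.1.1 p.2) := by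
    apply Measurable.stronglyMeasurable
    refine Measurable.mul ?_ (Measurable.mul (hψ.comp measurable_snd) ?_)
    · have h2 : Continuous fun p : (E n × E n) × E n =>
          Complex.exp ((((-2 * Real.pi * ⟪p.2, p.1.2⟫ : ℝ)) : ℂ) * I) := by fun_prop
      exact h2.measurable
    · have h3 : Measurable fun p : (E n × E n) × E n => (p.1.1, p.2) :=
        (measurable_fst.comp measurable_fst).prodMk measurable_snd
      have h4 := hΦ.comp h3
      exact h4
  have h2 : StronglyMeasurable fun p : E n × E n => ∫ v : E n,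
      Complex.exp ((((-2 * Real.pi * ⟪v, p.2⟫ : ℝ)) : ℂ) * I) * (ψ v * Φ p.1 v) := h1.integral_prod_right'
  have h3 : (fun p : E n × E n => 𝓕 (fun w => ψ w * Φ p.1 w) p.2) = fun p : E n × E n => ∫ v : E n,
      Complex.exp ((((-2 * Real.pi * ⟪v, p.2⟫ : ℝ)) : ℂ) * I) * (ψ v * Φ p.1 v) := by
    funext p
    rw [Real.fourier_eq']
    rfl
  rw [h3]
  exact h2.measurable

/-- the estimate -/
theorem orb_bd (n r N K : ℕ) (hK : n + r < K) (q : ℝ) (hq : 1 ≤ q) (B : ℝ) (hB : 0 ≤ B)
    (h : ∀ (V : Fin r → Submodule ℝ (E n)), Orth V →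
      ∀ e : Fin r → E n, Un V e → ∀ (η : Fin (r + N) → E n) (g : Fin (r + N) → E n → ℝ → ℂ),
      (∀ j, Fac (g j)) →
      MulS (SV V e) q (fun x => ∏ j, g j (SV V e x) ⟪η j, x⟫) (ENNReal.ofReal B)) :
    ∃ B₂ : ℝ, 0 ≤ B₂ ∧ ∀ (V : Fin r → Submodule ℝ (E n)), Orth V → ∀ e : Fin r → E n, Un V e →
      ∀ (η : Fin N → E n) (g : Fin N → E n → ℝ → ℂ), (∀ j, Fac (g j)) →
      ∀ Φ : E n → E n → ℂ, Measurable (Function.uncurry Φ) → (∀ y, ContDiff ℝ K (Φ y)) →
      (∀ y, ∀ k ≤ K, ∀ w, ‖iteratedFDeriv ℝ k (Φ y) w‖ ≤ 1) →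
      LL q (fun x => Φ (SV V e x) (om V x) * ∏ j, g j (SV V e x) ⟪η j, x⟫) ≤ ENNReal.ofReal B₂ := by
  obtain ⟨ψ, hψ, hψc, hψ1, -⟩ := cutoff n ((r : ℝ) + 1) (by positivity)
  obtain ⟨c, hc, hfour⟩ := four n K ψ hψ hψc
  have hKn : n < K := by omega
  have hKr : (n : ℝ) < (K : ℝ) - r := by
    have : ((n + r : ℕ) : ℝ) < K := by exact_mod_cast hK
    push_cast at this
    linarith
  set W : E n → ℝ := fun ξ => (1 + ‖ξ‖) ^ (-((K : ℝ) - r)) with hW
  have hW0 : ∀ ξ, 0 < W ξ := fun ξ => Real.rpow_pos_of_pos (by positivity) _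
  have hWi : Integrable W := by
    apply integrable_one_add_norm
    rw [finrank_euclideanSpace_fin]
    exact hKr
  have hWc : Continuous W := by
    have : Continuous fun ξ : E n => (1 + ‖ξ‖) ^ (-((K : ℝ) - r)) :=
      Continuous.rpow_const (by fun_prop) fun ξ => Or.inl (by positivity)
    exact this
  set J : ℝ := ∫ ξ, W ξ with hJ
  have hJ0 : 0 < J := by
    rw [hJ, integral_pos_iff_support_of_nonneg (fun ξ => (hW0 ξ).le) hWi]
    have h1 : Function.support W = univ := by
      ext ξ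
      simp [(hW0 ξ).ne']
    rw [h1]
    exact isOpen_univ.measure_pos volume univ_nonempty
  refine ⟨J * ((4 * Real.pi) ^ r * c * B), by positivity, ?_⟩
  intro V hV e he η g hg Φ hΦ hΦs hΦb
  have hS : Measurable (SV V e) := (SV_cont V e).measurable
  set Fh : E n → E n → ℂ := fun y ξ => 𝓕 (fun w => ψ w * Φ y w) ξ with hFh
  have hFm : Measurable (Function.uncurry Fh) := four_meas ψ hψ.continuous.measurable Φ hΦ
  have hFb : ∀ y ξ, ‖Fh y ξ‖ ≤ c * (1 + ‖ξ‖) ^ (-(K : ℝ)) := fun y =>
    (hfour (Φ y) (hΦs y) (hΦb y)).2.2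
  set P : E n → ℂ := fun x => ∏ j, g j (SV V e x) ⟪η j, x⟫ with hP
  have hPm : Measurable P := by
    refine Finset.measurable_prod _ fun j _ => ?_
    have h2 : Measurable fun x : E n => (SV V e x, (⟪η j, x⟫ : ℝ)) := hS.prodMk (in_meas _)
    have h3 := (hg j).1.comp h2
    exact h3
  have hP1 : ∀ x, ‖P x‖ ≤ 1 := by
    intro x
    rw [hP]
    simp only
    rw [norm_prod]
    exact Finset.prod_le_one (fun _ _ => norm_nonneg _) fun j _ => (hg j).2.1 _ _
  -- the pieces
  set k : E n → E n → ℂ := fun ξ x => Fh (SV V e x) ξ * ch ⟪ξ, om V x⟫ * P x with hk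
  have hkm : Measurable fun p : E n × E n => k p.2 p.1 := by
    have h1 : Measurable fun p : E n × E n => (SV V e p.1, p.2) :=
      (hS.comp measurable_fst).prodMk measurable_snd
    have h2 : Measurable fun p : E n × E n => Fh (SV V e p.1) p.2 := by
      have h3 := hFm.comp h1
      exact h3
    have h4 : Measurable fun p : E n × E n => (⟪p.2, om V p.1⟫ : ℝ) :=
      measurable_snd.inner ((om_meas V).comp measurable_fst)
    exact (h2.mul (ch_cont.measurable.comp h4)).mul (hPm.comp measurable_fst)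
  have hkb : ∀ ξ x, ‖k ξ x‖ ≤ c * (1 + ‖ξ‖) ^ (-(K : ℝ)) := by
    intro ξ x
    rw [hk]
    simp only
    rw [norm_mul, norm_mul, ch_norm, mul_one]
    calc ‖Fh (SV V e x) ξ‖ * ‖P x‖ ≤ (c * (1 + ‖ξ‖) ^ (-(K : ℝ))) * 1 := by
          refine mul_le_mul (hFb _ _) (hP1 x) (norm_nonneg _) ?_
          positivity
      _ = _ := mul_one _
  have hrep : ∀ x, Φ (SV V e x) (om V x) * P x = ∫ ξ, k ξ x := by
    intro x
    have h1 := hfour (Φ (SV V e x)) (hΦs _) (hΦb _)
    have h2 := four_inv n K hKn ψ (Φ (SV V e x)) c h1.1 h1.2.1 h1.2.2 (om V x)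
    rw [hψ1 (om V x) ((om_norm V x).trans (by linarith)), one_mul] at h2
    rw [h2, ← integral_mul_const]
    apply integral_congr_ae
    refine ae_of_all _ fun ξ => ?_
    rw [hk, hFh]
    simp only
    ring
  -- Fubini
  have hT : ∀ z, T (fun x => Φ (SV V e x) (om V x) * P x) z = ∫ ξ, T (k ξ) z := by
    intro z
    simp only [T_def]
    have hI : Integrable (Function.uncurry fun (x : E n) (ξ : E n) => ex z x * k ξ x)
        ((sg n).prod volume) := by
      have h1 : Integrable (fun _ : E n => (1 : ℝ)) (sg n) := integrable_const _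
      have h2 : Integrable fun ξ : E n => c * (1 + ‖ξ‖) ^ (-(K : ℝ)) := by
        apply Integrable.const_mul
        apply integrable_one_add_norm
        rw [finrank_euclideanSpace_fin]
        exact_mod_cast hKn
      refine Integrable.mono' (h1.mul_prod h2) ?_ (ae_of_all _ fun y => ?_)
      · apply Measurable.aestronglyMeasurable
        exact ((ex_cont' z).measurable.comp measurable_fst).mul hkm
      · rw [Function.uncurry, norm_mul, ex_norm, one_mul, one_mul]
        exact hkb _ _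
    have hs := integral_integral_swap hI
    simp only [hrep]
    simp only [← integral_const_mul]
    exact hs
  -- one piece
  have hone : ∀ ξ, LL q (k ξ) ≤ ENNReal.ofReal ((4 * Real.pi) ^ r * c * B * W ξ) := by
    intro ξ
    set w : ℝ := c * (1 + ‖ξ‖) ^ (-(K : ℝ)) with hw
    have hw0 : 0 < w := by positivity
    set H' : E n → ℂ := fun y => ((w⁻¹ : ℝ) : ℂ) * Fh y ξ with hH'
    have hH'm : Measurable H' := by
      have h1 : Measurable fun y : E n => (y, ξ) := measurable_id.prodMk measurable_const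
      have h2 : Measurable fun y : E n => Fh y ξ := by
        have h3 := hFm.comp h1
        exact h3
      exact h2.const_mul _
    have hH'1 : ∀ y, ‖H' y‖ ≤ 1 := by
      intro y
      rw [hH']
      simp only
      rw [norm_mul, Complex.norm_real, Real.norm_of_nonneg (by positivity), inv_mul_le_iff₀ hw0, mul_one]
      exact hFb y ξ
    have h1 := h V hV e he (Fin.append (fun i => (V i).starProjection ξ) η)
      (Fin.append (fun i => ph V ξ i) g) (by
        intro j
        refine Fin.addCases (fun i => ?_) (fun i => ?_) j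
        · rw [Fin.append_left]
          exact ph_fac V ξ i
        · rw [Fin.append_right]
          exact hg i) H' hH'm hH'1
    simp only [Fin.prod_univ_add, Fin.append_left, Fin.append_right] at h1
    have e1 : k ξ = fun x => ((Am V ξ * w : ℝ) : ℂ) * (H' (SV V e x) *
        ((∏ i, ph V ξ i (SV V e x) ⟪(V i).starProjection ξ, x⟫) * ∏ j, g j (SV V e x) ⟪η j, x⟫)) := by
      funext x
      rw [hk, hH', hP]
      simp only
      rw [ch_om V hV e he]
      have h2 : (w : ℂ) * ((w⁻¹ : ℝ) : ℂ) = 1 := by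
        rw [← Complex.ofReal_mul, mul_inv_cancel₀ hw0.ne', Complex.ofReal_one]
      push_cast
      push_cast at h2
      calc Fh (SV V e x) ξ * ((Am V ξ : ℂ) * ∏ i, ph V ξ i (SV V e x) ⟪(V i).starProjection ξ, x⟫) *
            ∏ j, g j (SV V e x) ⟪η j, x⟫ = ((w : ℂ) * (w : ℂ)⁻¹) * (Fh (SV V e x) ξ * ((Am V ξ : ℂ) *
            ∏ i, ph V ξ i (SV V e x) ⟪(V i).starProjection ξ, x⟫) *
            ∏ j, g j (SV V e x) ⟪η j, x⟫) := by rw [h2, one_mul]
        _ = _ := by ring
    have hmeas : Measurable fun x => H' (SV V e x) *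
        ((∏ i, ph V ξ i (SV V e x) ⟪(V i).starProjection ξ, x⟫) * ∏ j, g j (SV V e x) ⟪η j, x⟫) := by
      refine (hH'm.comp hS).mul (Measurable.mul ?_ hPm)
      refine Finset.measurable_prod _ fun j _ => ?_
      have h2 : Measurable fun x : E n => (SV V e x, (⟪(V j).starProjection ξ, x⟫ : ℝ)) :=
        hS.prodMk (in_meas _)
      have h3 := (ph_fac V ξ j).1.comp h2
      exact h3
    rw [e1, LL_smul q hq _ _ hmeas]
    refine (mul_le_mul' le_rfl h1).trans ?_
    have hA := Am_nonneg V ξ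
    rw [← ofReal_norm, Complex.norm_real, Real.norm_of_nonneg (by positivity),
      ← ENNReal.ofReal_mul (by positivity)]
    apply ENNReal.ofReal_le_ofReal
    have h3 := Am_le V ξ
    have h4 : (1 + ‖ξ‖) ^ r * (1 + ‖ξ‖) ^ (-(K : ℝ)) = W ξ := by
      rw [hW, ← Real.rpow_natCast, ← Real.rpow_add (by positivity)]
      congr 1
      ring
    calc Am V ξ * w * B ≤ ((4 * Real.pi) ^ r * (1 + ‖ξ‖) ^ r) * w * B := by gcongr
      _ = (4 * Real.pi) ^ r * c * B * ((1 + ‖ξ‖) ^ r * (1 + ‖ξ‖) ^ (-(K : ℝ))) := by rw [hw]; ring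
      _ = _ := by rw [h4]
  -- the superposition
  have hJW : ∀ ξ, 0 < J / W ξ := fun ξ => div_pos hJ0 (hW0 ξ)
  have hkξm : ∀ ξ, Measurable (k ξ) := by
    intro ξ
    have h1 : Measurable fun x : E n => (x, ξ) := measurable_id.prodMk measurable_const
    have h2 := hkm.comp h1
    exact h2
  refine LL_mix volume q hq _ (fun ξ x => ((J / W ξ : ℝ) : ℂ) * k ξ x) (fun ξ => ENNReal.ofReal (W ξ / J))
    (hWc.measurable.div_const _).ennreal_ofReal ?_ ?_ ?_ _ ?_
  · rw [← ofReal_integral_eq_lintegral_ofReal (hWi.div_const _)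
      (ae_of_all _ fun ξ => (div_pos (hW0 ξ) hJ0).le), integral_div, ← hJ, div_self hJ0.ne']
    simp
  · refine T_joint (fun ξ x => ((J / W ξ : ℝ) : ℂ) * k ξ x) ?_
    refine Measurable.mul ?_ hkm
    exact Complex.measurable_ofReal.comp ((measurable_const.div hWc.measurable).comp measurable_snd)
  · intro z
    rw [hT z]
    refine (enorm_integral_le_lintegral_enorm _).trans (le_of_eq ?_)
    apply lintegral_congr
    intro ξ
    rw [T_smul, enorm_mul, ← mul_assoc, ← ofReal_norm ((J / W ξ : ℝ) : ℂ), Complex.norm_real,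
      Real.norm_of_nonneg (hJW ξ).le, ← ENNReal.ofReal_mul (div_pos (hW0 ξ) hJ0).le]
    have h1 : W ξ / J * (J / W ξ) = 1 := by
      have := (hW0 ξ).ne'
      field_simp
    rw [h1, ENNReal.ofReal_one, one_mul]
  · intro ξ
    rw [LL_smul q hq _ _ (hkξm ξ), ← ofReal_norm, Complex.norm_real, Real.norm_of_nonneg (hJW ξ).le]
    refine (mul_le_mul' le_rfl (hone ξ)).trans (le_of_eq ?_)
    rw [← ENNReal.ofReal_mul (hJW ξ).le]
    congr 1
    have := (hW0 ξ).ne'
    field_simp

end Pool.Agent.Y295.BV
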