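import Mathlib
import Pool.Agent.Y295.BV.H
set_option autoImplicit false
set_option linter.unusedSectionVars false

/-! One density. -/

namespace Pool.Agent.Y295.BV

open MeasureTheory Set Complex Filter Topology
open scoped ENNReal NNReal RealInnerProductSpace
open Pool.Agent.H789R2.FR (E sg T)
open Pool.Agent.Y295.SP (LL LL_smul)
open Pool.Agent.Y61.MB (Orth Radial)

variable {n r : ℕ}

attribute [local irreducible] LL

/-- one density -/
theorem dens_bd2 (N K : ℕ) (q : ℝ) (hq : 1 ≤ q) (B : ℝ)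
    (h : ∀ (V : Fin r → Submodule ℝ (E n)), Orth V → ∀ e : Fin r → E n, Un V e →
      ∀ (η : Fin N → E n) (g : Fin N → E n → ℝ → ℂ), (∀ j, Fac (g j)) →
      ∀ Φ : E n → E n → ℂ, Measurable (Function.uncurry Φ) → (∀ y, ContDiff ℝ K (Φ y)) →
      (∀ y, ∀ k ≤ K, ∀ w, ‖iteratedFDeriv ℝ k (Φ y) w‖ ≤ 1) →
      LL q (fun x => Φ (SV V e x) (om V x) * ∏ j, g j (SV V e x) ⟪η j, x⟫) ≤ ENNReal.ofReal B)
    (V : Fin r → Submodule ℝ (E n)) (hV : Orth V) (η : Fin N → E n) (g : Fin N → E n → ℝ → ℂ)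
    (hg : ∀ j, Fac (g j)) (hgr : ∀ j t, Rad V fun x => g j x t) (Φ : E n → E n → ℂ)
    (hΦ : Measurable (Function.uncurry Φ)) (hΦr : ∀ w, Rad V fun x => Φ x w)
    (hΦs : ∀ y, ContDiff ℝ K (Φ y)) (M : ℝ)
    (hΦb : ∀ y, ∀ k ≤ K, ∀ w, ‖iteratedFDeriv ℝ k (Φ y) w‖ ≤ M) :
    LL q (fun x => Φ x (om V x) * ∏ j, g j x ⟪η j, x⟫) ≤ ENNReal.ofReal (B * M) := by
  obtain ⟨e, he⟩ := exists_un V hV
  have hS : Measurable (SV V e) := (SV_cont V e).measurable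
  have hM0 : 0 ≤ M := (norm_nonneg _).trans (hΦb 0 0 (Nat.zero_le _) 0)
  have hM : ∀ x w, ‖Φ x w‖ ≤ M := by
    intro x w
    have h1 := hΦb x 0 (Nat.zero_le _) w
    rwa [norm_iteratedFDeriv_zero] at h1
  set Φ' : E n → E n → ℂ := fun y w => M⁻¹ • Φ y w with hΦ'
  have hΦ'm : Measurable (Function.uncurry Φ') := by
    have h1 : Measurable (M⁻¹ • Function.uncurry Φ) := hΦ.const_smul _
    exact h1
  have hΦ's : ∀ y, ContDiff ℝ K (Φ' y) := fun y => (hΦs y).const_smul _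
  have hΦ'b : ∀ y, ∀ k ≤ K, ∀ w, ‖iteratedFDeriv ℝ k (Φ' y) w‖ ≤ 1 := by
    intro y k hk w
    have h1 : iteratedFDeriv ℝ k (Φ' y) w = M⁻¹ • iteratedFDeriv ℝ k (Φ y) w := by
      have h2 := iteratedFDeriv_const_smul_apply (𝕜 := ℝ) (i := k) (a := M⁻¹) (f := Φ y) (x := w)
        ((hΦs y).contDiffAt.of_le (by exact_mod_cast hk))
      exact h2
    rw [h1, norm_smul, norm_inv, Real.norm_of_nonneg hM0]
    rcases hM0.eq_or_lt with h0 | h0
    · rw [← h0]; simp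
    · rw [inv_mul_le_iff₀ h0, mul_one]
      exact hΦb y k hk w
  have hΦΦ' : ∀ x w, Φ x w = (M : ℂ) * Φ' x w := by
    intro x w
    rw [hΦ']
    rcases hM0.eq_or_lt with h0 | h0
    · have h1 := hM x w
      rw [← h0] at h1
      have h2 : Φ x w = 0 := norm_le_zero_iff.1 h1
      simp [h2]
    · simp only
      rw [Complex.real_smul, ← mul_assoc, ← Complex.ofReal_mul, mul_inv_cancel₀ h0.ne',
        Complex.ofReal_one, one_mul]
  have hΦ'r : ∀ w, Rad V fun x => Φ' x w := by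
    intro w x y hx hy
    have h1 := hΦr w x y hx hy
    simp only at h1
    rw [hΦ']
    simp only
    rw [h1]
  have e1 : (fun x => Φ x (om V x) * ∏ j, g j x ⟪η j, x⟫) =
      fun x => (M : ℂ) * (Φ' (SV V e x) (om V x) * ∏ j, g j (SV V e x) ⟪η j, x⟫) := by
    funext x
    have h3 := rad_SV V hV e he (fun y => Φ' y (om V x)) (hΦ'r _) x
    rw [hΦΦ' x, h3]
    have h2 : ∀ j, g j x ⟪η j, x⟫ = g j (SV V e x) ⟪η j, x⟫ := fun j =>
      rad_SV V hV e he (fun y => g j y ⟪η j, x⟫) (hgr j _) x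
    simp only [h2]
    ring
  have hmeas : Measurable fun x => Φ' (SV V e x) (om V x) * ∏ j, g j (SV V e x) ⟪η j, x⟫ := by
    refine Measurable.mul ?_ (Finset.measurable_prod _ fun j _ => ?_)
    · have h1 : Measurable fun x : E n => (SV V e x, om V x) := hS.prodMk (om_meas V)
      have h2 := hΦ'm.comp h1
      exact h2
    · have h2 : Measurable fun x : E n => (SV V e x, (⟪η j, x⟫ : ℝ)) := hS.prodMk (in_meas _)
      have h3 := (hg j).1.comp h2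
      exact h3
  rw [e1, LL_smul q hq (M : ℂ) _ hmeas]
  refine (mul_le_mul' le_rfl (h V hV e he η g hg Φ' hΦ'm hΦ's hΦ'b)).trans (le_of_eq ?_)
  rw [← ofReal_norm, Complex.norm_real, Real.norm_of_nonneg hM0, ← ENNReal.ofReal_mul hM0, mul_comm]

/-- the estimate -/
theorem main2 (n r N K : ℕ) (hr : 2 ≤ r) (hn : r < n) (hK : n + r < K) (q : ℝ) (h : Adm n r q) :
    ∃ B : ℝ, 0 ≤ B ∧ ∀ (V : Fin r → Submodule ℝ (E n)), Orth V → ∀ (η : Fin N → E n)
      (g : Fin N → E n → ℝ → ℂ), (∀ j, Fac (g j)) → (∀ j t, Rad V fun x => g j x t) →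
      ∀ Φ : E n → E n → ℂ, Measurable (Function.uncurry Φ) → (∀ w, Rad V fun x => Φ x w) →
      (∀ y, ContDiff ℝ K (Φ y)) → ∀ M : ℝ, (∀ y, ∀ k ≤ K, ∀ w, ‖iteratedFDeriv ℝ k (Φ y) w‖ ≤ M) →
      LL q (fun x => Φ x (om V x) * ∏ j, g j x ⟪η j, x⟫) ≤ ENNReal.ofReal (B * M) := by
  have hq : 1 ≤ q := adm_one n r hr hn q h
  obtain ⟨B, hB, h1⟩ := main n r (r + N) hr hn q h
  obtain ⟨B₂, hB₂, h2⟩ := orb_bd n r N K hK q hq B hB h1
  refine ⟨B₂, hB₂, ?_⟩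
  intro V hV η g hg hgr Φ hΦ hΦr hΦs M hΦb
  exact dens_bd2 N K q hq B₂ h2 V hV η g hg hgr Φ hΦ hΦr hΦs M hΦb

end Pool.Agent.Y295.BV
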